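import Pool.Agent.Lib.MP_a8bb0e_al.Uni.Ten

/-! Dictionary between central extensions and their commutator maps. -/

open scoped commutatorElement
open Matrix

namespace Pool.Agent.Lib.MP_a8bb0e_al.Uni

variable {G H : Type} [Group G] [Group H] {σ I : Type} [Fintype σ] [Fintype I] [DecidableEq σ]
  [DecidableEq I]

/-- structure constants of the commutator map -/
noncomputable def ten (E : Ext G σ I) : σ → σ → I → ℤ :=
  fun i j => E.w (Pi.single i 1) (Pi.single j 1)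

omit [Fintype I] [DecidableEq I] in
lemma w_eq_bil (E : Ext G σ I) (x y : σ → ℤ) : E.w x y = bil (ten E) x y := by
  funext a
  conv_lhs => rw [pi_eq_sum_univ' x, pi_eq_sum_univ' y]
  simp only [map_sum, map_smul, LinearMap.sum_apply, LinearMap.smul_apply, Finset.sum_apply,
    Pi.smul_apply, smul_eq_mul, bil, ten, Int.cast_id, Finset.mul_sum]
  rw [Finset.sum_comm]
  exact Finset.sum_congr rfl fun i _ => Finset.sum_congr rfl fun j _ => by ring

omit [Fintype I] [DecidableEq I] in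
lemma exists_hom (E : Ext G σ I) {K : Type} [Group K] (y : σ → K)
    (j : Multiplicative (I → ℤ) →* K) (cen : ∀ c k, Commute (j c) k)
    (hc : ∀ i k, ⁅y i, y k⁆ = j (.ofAdd (ten E i k))) :
    ∃ (F : G →* K) (s : σ → G), (∀ i, E.p (s i) = Pi.single i 1) ∧ (∀ i, F (s i) = y i) ∧
      ∀ c, F (E.i c) = j (.ofAdd c) := by
  choose s hs using fun i : σ => E.p_surj (Pi.single i 1)
  let D : Subgroup (G × K) := (E.J.prod j).range
  have : D.Normal := ⟨by
    rintro _ ⟨c, rfl⟩ g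
    refine ⟨c, ?_⟩
    have : Commute ((E.J.prod j) c) g := Prod.ext (E.cen c g.1) (cen c g.2)
    rw [← this.eq, mul_inv_cancel_right]⟩
  let π := QuotientGroup.mk' D
  have hD : ∀ c, π (E.i c, j (.ofAdd c)) = 1 := fun c =>
    (QuotientGroup.eq_one_iff _).2 ⟨.ofAdd c, rfl⟩
  let w : σ → (G × K) ⧸ D := fun i => π (s i, y i)
  have hw : ∀ i k, Commute (w i) (w k) := fun i k => by
    refine commutatorElement_eq_one_iff_commute.1 ?_
    rw [← map_commutatorElement, ← hD (ten E i k), ← hc, ten, ← hs, ← hs, E.i_w]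
    rfl
  let A := Subgroup.closure (Set.range w)
  have hA : IsMulCommutative A := Subgroup.isMulCommutative_closure (by
    rintro _ ⟨i, rfl⟩ _ ⟨k, rfl⟩
    exact hw i k)
  obtain ⟨r0, hr0, -⟩ := exists_hom_center (K := A)
    (fun i => ⟨w i, Subgroup.subset_closure ⟨i, rfl⟩⟩) fun i =>
      Subgroup.mem_center_iff.2 fun _ => hA.is_comm.comm _ _
  let r := A.subtype.comp r0
  have hr : ∀ i, r (.ofAdd (Pi.single i 1)) = w i := fun i => congrArg Subtype.val (hr0 i)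
  let q : (G × K) ⧸ D →* Multiplicative (σ → ℤ) :=
    QuotientGroup.lift D (E.P.comp (MonoidHom.fst G K)) (by
      rintro _ ⟨c, rfl⟩
      exact (E.ex _).2 ⟨c, rfl⟩)
  have hq : ∀ γ : G × K, q (π γ) = E.P γ.1 := fun _ => rfl
  have hqr : ∀ a, q (r a) = a := hom_ext (j := q.comp r) (j' := MonoidHom.id _) fun i => by
    rw [MonoidHom.comp_apply, hr, hq]
    exact congrArg Multiplicative.ofAdd (hs i)
  let Γ := r.range.comap π
  let f : Γ →* G := (MonoidHom.fst G K).comp Γ.subtype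
  have bij : Function.Bijective f := by
    refine ⟨(injective_iff_map_eq_one f).2 ?_, fun g => ?_⟩
    · rintro ⟨γ, a, ha⟩ h1
      have h2 : γ.1 = 1 := h1
      have h3 : a = 1 := by rw [← hqr a, ha, hq, h2, map_one]
      rw [h3, map_one] at ha
      obtain ⟨c, hc⟩ := (QuotientGroup.eq_one_iff _).1 ha.symm
      have h4 : c = 1 := E.Ji (by rw [map_one, ← h2, ← hc]; rfl)
      rw [h4, map_one] at hc
      exact Subtype.ext hc.symm
    · obtain ⟨γ, hγ⟩ := QuotientGroup.mk'_surjective D (r (E.P g))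
      have h1 : E.p g = E.p γ.1 := congrArg Multiplicative.toAdd (by
        rw [← hq, hγ, hqr])
      obtain ⟨c, hc⟩ := E.of_p_eq h1
      refine ⟨⟨γ * (E.i c, j (.ofAdd c)), E.P g, ?_⟩, hc.symm⟩
      rw [map_mul, hD, mul_one, hγ]
  let e := MulEquiv.ofBijective f bij
  have key : ∀ γ : Γ, (((MonoidHom.snd G K).comp Γ.subtype).comp e.symm.toMonoidHom) (f γ) = γ.1.2 :=
    fun γ => congrArg (fun z : Γ => z.1.2) (e.symm_apply_apply γ)
  exact ⟨_, s, hs, fun i => key ⟨(s i, y i), _, hr i⟩,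
    fun c => key ⟨(E.i c, j (.ofAdd c)), 1, by rw [map_one, hD]⟩⟩

lemma exists_surj_mod (E : Ext G σ I) (E' : Ext H σ I) {K : Type} [Group K] (π : H →* K)
    (hπ : Function.Surjective π) {M : ℕ} (hM : ∀ k : K, k ^ M = 1)
    {g g' : Matrix σ σ (ZMod M)} {h h' : Matrix I I (ZMod M)}
    (hI : IsoT (ten E') (ten E) g g' h h') : ∃ F : G →* K, Function.Surjective F := by
  have lift : ∀ {a : Type} (m : Matrix a a (ZMod M)), ∃ m0 : Matrix a a ℤ,
      m0.map (Int.castRingHom (ZMod M)) = m := fun m =>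
    ⟨m.map ZMod.cast, Matrix.ext fun i j => ZMod.intCast_zmod_cast _⟩
  obtain ⟨g, rfl⟩ := lift g
  obtain ⟨g', rfl⟩ := lift g'
  obtain ⟨h, rfl⟩ := lift h
  obtain ⟨h', rfl⟩ := lift h'
  have hI0 := hI
  rw [isoT_map_iff] at hI
  have red : ∀ c d : I → ℤ, (∀ a, ((c - d) a : ZMod M) = 0) → π (E'.i c) = π (E'.i d) :=
    fun c d e => by
      obtain ⟨z, hz⟩ := dvd_of_cast (funext e)
      rw [eq_add_of_sub_eq hz, E'.i_add, E'.i_smul, map_mul, map_pow, hM, one_mul]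
  choose k hk using fun i => E'.p_surj fun l => g l i
  let j : Multiplicative (I → ℤ) →* K := π.comp (MonoidHom.mk' (fun c => E'.i (c.toAdd ᵥ* h))
    fun a b => by rw [toAdd_mul, add_vecMul, E'.i_add])
  obtain ⟨F, s, -, h1, h2⟩ := exists_hom E (fun i => π (k i)) j
    (fun c x => by
      obtain ⟨x, rfl⟩ := hπ x
      exact (E'.i_cen _ x).map π)
    fun i l => by
      rw [← map_commutatorElement, ← E'.i_w, hk, hk, w_eq_bil]
      exact red _ _ fun a => hI.2.2 i l a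
  have s1 : ∀ c, π (E'.i c) ∈ F.range := fun c => ⟨E.i (c ᵥ* h'), by
    rw [h2]
    refine red _ _ fun a => ?_
    change Int.castRingHom (ZMod M) ((c ᵥ* h' ᵥ* h) a - c a) = 0
    rw [map_sub, vecMul_vecMul, RingHom.map_vecMul, Matrix.map_mul, mul_eq_one_comm.1 hI0.2.1,
      vecMul_one]
    exact sub_self _⟩
  let S : AddSubgroup (σ → ℤ) :=
    { carrier := {x | ∃ u, E'.p u = g *ᵥ x ∧ π u ∈ F.range}
      zero_mem' := ⟨1, by rw [E'.p_one, mulVec_zero], by rw [map_one]; exact one_mem _⟩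
      add_mem' := by
        rintro a b ⟨u, hu, hu'⟩ ⟨v, hv, hv'⟩
        exact ⟨u * v, by rw [E'.p_mul, hu, hv, mulVec_add], by rw [map_mul]; exact mul_mem hu' hv'⟩
      neg_mem' := by
        rintro a ⟨u, hu, hu'⟩
        exact ⟨u⁻¹, by rw [E'.p_inv, hu, mulVec_neg], by rw [map_inv]; exact inv_mem hu'⟩ }
  refine ⟨F, fun x => ?_⟩
  obtain ⟨x, rfl⟩ := hπ x
  obtain ⟨u, hu, hu'⟩ := pi_ind S (fun i => ⟨k i, (hk i).trans (mulVec_single_one g i).symm,
    _, h1 i⟩) (g' *ᵥ E'.p x)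
  obtain ⟨z, hz⟩ := dvd_of_cast (M := M) (x := E'.p (u⁻¹ * x)) (funext fun a => by
    rw [E'.p_mul, E'.p_inv, hu, mulVec_mulVec]
    change Int.castRingHom (ZMod M) (-((g * g') *ᵥ E'.p x) a + E'.p x a) = 0
    rw [map_add, map_neg, RingHom.map_mulVec, Matrix.map_mul, hI0.1, one_mulVec]
    exact neg_add_cancel _)
  obtain ⟨v, c, hv⟩ := E'.root hz
  rw [← mul_inv_cancel_left u x, hv, map_mul, map_mul, map_pow, hM, one_mul]
  exact mul_mem hu' (s1 c)

lemma sameFin_of (E : Ext G σ I) (E' : Ext H σ I)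
    (h : ∀ M : ℕ, 0 < M → ∃ (g g' : Matrix σ σ (ZMod M)) (h h' : Matrix I I (ZMod M)),
      IsoT (ten E') (ten E) g g' h h') : SameFin G H := fun Q _ _ => by
  obtain ⟨g, g', h, h', hI⟩ := h (Nat.card Q) Nat.card_pos
  exact ⟨fun ⟨f, hf⟩ => exists_surj_mod E E' f hf (fun _ => pow_card_eq_one') hI,
    fun ⟨f, hf⟩ => exists_surj_mod E' E f hf (fun _ => pow_card_eq_one') hI.symm⟩

lemma surj_of_int (E : Ext G σ I) (E' : Ext H σ I) {g g' : Matrix σ σ ℤ} {h h' : Matrix I I ℤ}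
    (hI : IsoT (ten E') (ten E) g g' h h') : ∃ F : G →* H, Function.Surjective F :=
  exists_surj_mod E E' (MonoidHom.id H) Function.surjective_id (M := 0) (fun k => pow_zero k) hI

lemma mats_of_hom (E : Ext G σ I) (E' : Ext H σ I) (φ : G →* H) :
    ∃ (g : Matrix σ σ ℤ) (h : Matrix I I ℤ), (∀ u, E'.p (φ u) = g *ᵥ E.p u) ∧
      ∀ c, φ (E.i c) = E'.i (c ᵥ* h) := by
  have h0 : ∀ c, E'.p (φ (E.i c)) = 0 := fun c => by
    obtain ⟨N, hN, e⟩ := E.tor (.ofAdd c)
    have h1 := Abelianization.commutator_subset_ker (E'.P.comp φ) e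
    rw [MonoidHom.mem_ker, map_pow] at h1
    have h2 : N • E'.p (φ (E.i c)) = 0 := congrArg Multiplicative.toAdd h1
    exact (smul_eq_zero.1 h2).resolve_left hN.ne'
  choose h hh using fun b : I => E'.of_p (h0 (Pi.single b 1))
  choose s hs using fun i : σ => E.p_surj (Pi.single i 1)
  let g : Matrix σ σ ℤ := Matrix.of fun l i => E'.p (φ (s i)) l
  let S : AddSubgroup (σ → ℤ) :=
    { carrier := {x | ∃ u, E.p u = x ∧ E'.p (φ u) = g *ᵥ x}
      zero_mem' := ⟨1, E.p_one, by rw [map_one, E'.p_one, mulVec_zero]⟩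
      add_mem' := by
        rintro a b ⟨u, hu, hu'⟩ ⟨v, hv, hv'⟩
        exact ⟨u * v, by rw [E.p_mul, hu, hv], by rw [map_mul, E'.p_mul, hu', hv', mulVec_add]⟩
      neg_mem' := by
        rintro a ⟨u, hu, hu'⟩
        exact ⟨u⁻¹, by rw [E.p_inv, hu], by rw [map_inv, E'.p_inv, hu', mulVec_neg]⟩ }
  let S' : AddSubgroup (I → ℤ) :=
    { carrier := {c | φ (E.i c) = E'.i (c ᵥ* Matrix.of h)}
      zero_mem' := by simp [Ext.i_zero]
      add_mem' := fun {a b} ha hb => by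
        simp only [Set.mem_ofPred_eq] at ha hb ⊢
        rw [Ext.i_add, map_mul, ha, hb, add_vecMul, Ext.i_add]
      neg_mem' := fun {a} ha => by
        simp only [Set.mem_ofPred_eq] at ha ⊢
        rw [Ext.i_neg, map_inv, ha, neg_vecMul, Ext.i_neg] }
  refine ⟨g, Matrix.of h, fun u => ?_,
    pi_ind S' fun b => (hh b).symm.trans (by rw [single_one_vecMul]; rfl)⟩
  obtain ⟨v, e1, e2⟩ := pi_ind S (fun i => ⟨s i, hs i, (mulVec_single_one g i).symm⟩) (E.p u)
  obtain ⟨c, rfl⟩ := E.of_p_eq e1.symm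
  rw [← e2, map_mul, E'.p_mul, h0, add_zero]

lemma isoT_of_equiv (E : Ext G σ I) (E' : Ext H σ I) (φ : G ≃* H) :
    ∃ (g g' : Matrix σ σ ℤ) (h h' : Matrix I I ℤ), IsoT (ten E') (ten E) g g' h h' := by
  obtain ⟨g, h, a1, a2⟩ := mats_of_hom E E' φ.toMonoidHom
  obtain ⟨g', h', b1, b2⟩ := mats_of_hom E' E φ.symm.toMonoidHom
  refine ⟨g, g', h, h', IsoT.of_bil' ?_ ?_ fun x y => ?_⟩
  · refine Matrix.ext_of_mulVec_single fun i => ?_
    obtain ⟨k, hk⟩ := E'.p_surj (Pi.single i 1)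
    rw [← mulVec_mulVec, ← hk, ← b1, ← a1, one_mulVec]
    exact congrArg E'.p (φ.apply_symm_apply k)
  · refine Matrix.ext_of_single_vecMul fun i => E.i_inj ?_
    rw [← vecMul_vecMul, ← b2, ← a2, vecMul_one]
    exact φ.symm_apply_apply _
  · obtain ⟨u, rfl⟩ := E.p_surj x
    obtain ⟨v, rfl⟩ := E.p_surj y
    refine E'.i_inj ?_
    rw [← w_eq_bil, ← w_eq_bil, ← a1, ← a1, ← a2, E.i_w, E'.i_w, map_commutatorElement]

lemma level (E : Ext G σ I) (E' : Ext H σ I)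
    (hs : ∀ M, 0 < M → ∃ f : H →* G ⧸ Vm G M, Function.Surjective f) {M : ℕ} (hM : 0 < M) :
    ∃ (g g' : Matrix σ σ (ZMod M)) (h h' : Matrix I I (ZMod M)),
      IsoT (ten E) (ten E') g g' h h' := by
  obtain ⟨g, g', g0, h, h', h1, h2, h3, h4⟩ := level3 E E' hs hM
  refine ⟨g, g', _, h', h1, mul_eq_one_comm.1 h2, fun i j a => ?_⟩
  have := h4 i j a
  rw [w_eq_bil] at this
  simpa [bil, h3, vecMul, dotProduct, ten] using this

/-- change of the index types -/
def reidx {σ' I' : Type} (E : Ext G σ' I') (e : σ ≃ σ') (e' : I ≃ I') : Ext G σ I where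
  P := (AddMonoidHom.toMultiplicative (LinearEquiv.funCongrLeft ℤ ℤ e).toAddEquiv.toAddMonoidHom).comp E.P
  J := E.J.comp
    (AddMonoidHom.toMultiplicative (LinearEquiv.funCongrLeft ℤ ℤ e'.symm).toAddEquiv.toAddMonoidHom)
  Ps := (LinearEquiv.funCongrLeft ℤ ℤ e).surjective.comp E.Ps
  Ji := E.Ji.comp (LinearEquiv.funCongrLeft ℤ ℤ e'.symm).injective
  ex k := by
    refine Iff.trans ?_ ((E.ex k).trans ⟨fun ⟨c, hc⟩ => ?_, fun ⟨c, hc⟩ => ⟨_, hc⟩⟩)
    · exact (LinearEquiv.funCongrLeft ℤ ℤ e).map_eq_zero_iff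
    · obtain ⟨d, hd⟩ := (LinearEquiv.funCongrLeft ℤ ℤ e'.symm).surjective c.toAdd
      exact ⟨.ofAdd d, (congrArg E.J hd).trans hc⟩
  cen c k := E.cen _ k
  tor c := E.tor _

theorem local_iso [Group.IsNilpotent G] [Group.FG G] [Group.IsNilpotent H] [Group.FG H]
    (E : Ext G σ I) (h : SameFin G H) : ∃ E' : Ext H σ I, ∀ (p : ℕ) [Fact p.Prime],
      ∃ (g g' : Matrix σ σ ℤ_[p]) (h h' : Matrix I I ℤ_[p]), IsoT (ten E) (ten E') g g' h h' := by
  have := E.cl2
  have := h.cl2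
  obtain ⟨n', m', ⟨E'⟩⟩ := exists_ext fun _ _ => h.tf E
  have s1 := fun M (hM : 0 < M) => (h.exists_hom hM).imp fun _ h => h.1
  have s2 := fun M (hM : 0 < M) =>
    (SameFin.exists_hom (G := H) (H := G) (fun Q _ _ => (h Q).symm) hM).imp fun _ h => h.1
  let e := Fintype.equivOfCardEq (le_antisymm (card1 E E' s1) (card1 E' E s2))
  let E1 := reidx E' e (Equiv.refl _)
  let e' := Fintype.equivOfCardEq (le_antisymm (card2 E E1 s1) (card2 E1 E s2))
  exact ⟨reidx E' e e', fun p _ => isoT_padic p fun k =>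
    level E _ s1 (pow_pos (Fact.out : p.Prime).pos k)⟩

theorem equiv_of_int [Group.IsNilpotent G] [Group.FG G] [Group.IsNilpotent H] [Group.FG H]
    (E : Ext G σ I) (E' : Ext H σ I) {g g' : Matrix σ σ ℤ} {h h' : Matrix I I ℤ}
    (hI : IsoT (ten E') (ten E) g g' h h') : Nonempty (G ≃* H) := by
  obtain ⟨F, hF⟩ := surj_of_int E E' hI
  have hs : SameFin G H := sameFin_of E E' fun M _ => ⟨_, _, _, _, hI.map (Int.castRingHom _)⟩
  exact ⟨MulEquiv.ofBijective F ⟨hs.inj F hF, hF⟩⟩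

end Pool.Agent.Lib.MP_a8bb0e_al.Uni
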