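import Mathlib

/-! Rings on a free module of finite rank and the cocycle of the group attached to such a ring. -/

namespace Pool.Agent.Lib.MP_a8bb0e_al.Uni

/-- The product on `R ^ d` with integer structure constants `μ`. -/
def rmul {d : ℕ} (μ : Fin d → Fin d → Fin d → ℤ) {R : Type} [CommRing R] (x y : Fin d → R) :
    Fin d → R :=
  fun c => ∑ a, ∑ b, x a * y b * (μ a b c : R)

/-- The products `μ` and `ν` on `R ^ d` are isomorphic. -/
def RIso {d : ℕ} (R : Type) [CommRing R] (μ ν : Fin d → Fin d → Fin d → ℤ) : Prop :=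
  ∃ φ : (Fin d → R) ≃ₗ[R] (Fin d → R), ∀ x y, φ (rmul μ x y) = rmul ν (φ x) (φ y)

/-- Core indices: three single ones `t, s, e` and two copies of `Fin d`. -/
abbrev Cr (d : ℕ) : Type := Fin 3 ⊕ Fin d ⊕ Fin d

/-- The class of a core index. -/
def cl {d : ℕ} : Cr d → Fin 5 :=
  Sum.elim ![0, 1, 2] (Sum.elim (fun _ => 3) fun _ => 4)

/-- Auxiliary indices: five blocks, block `j` of size `j + 1` times `2 d + 4`. -/
abbrev Ax (d : ℕ) : Type := Σ j : Fin 5, Fin ((2 * d + 4) * (j + 1))

/-- Central indices: a copy of `Fin d` and the pairs of a core index and an auxiliary index of a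
different class. -/
abbrev Ce (d : ℕ) : Type := Fin d ⊕ {q : Cr d × Ax d // cl q.1 ≠ q.2.1}

/-- The bilinear cocycle attached to `μ`. -/
def coc {d : ℕ} (μ : Fin d → Fin d → Fin d → ℤ) {R : Type} [CommRing R]
    (x y : Cr d ⊕ Ax d → R) : Ce d → R :=
  Sum.elim
    (fun c => x (.inl (.inl 0)) * y (.inl (.inr (.inr c))) +
      x (.inl (.inr (.inl c))) * y (.inl (.inl 1)) +
      rmul μ (fun a => x (.inl (.inr (.inl a)))) (fun b => y (.inl (.inr (.inr b)))) c)
    fun q => x (.inl q.1.1) * y (.inr q.1.2)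

end Pool.Agent.Lib.MP_a8bb0e_al.Uni
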