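import Pool.Agent.Lib.MP_a8bb0e_al.Uni.Rel
import Pool.Agent.Lib.MP_a8bb0e_al.Split

/-! Descent of the block decomposition to the integers. -/

open Matrix

namespace Pool.Agent.Lib.MP_a8bb0e_al.Uni

variable {d : ℕ} {μ ν : Fin d → Fin d → Fin d → ℤ} {T : Sg d → Sg d → Ce d → ℤ}

/-- the projection to a block -/
def EE (d : ℕ) (R : Type) [CommRing R] (j : Fin 5 ⊕ Fin 5) : Matrix (Sg d) (Sg d) R :=
  diagonal fun i => if bcl i = j then 1 else 0

section
variable {R S : Type} [CommRing R] [CommRing S] {g g' f f' : Matrix (Sg d) (Sg d) R}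
  {h h' e e' : Matrix (Ce d) (Ce d) R}

lemma EE_map (φ : R →+* S) (j) : (EE d R j).map φ = EE d S j := by
  rw [EE, diagonal_map (map_zero φ)]
  simp [EE, apply_ite φ]

lemma bd_iff : BD g ↔ ∀ j, EE d R j * g = g * EE d R j := by
  simp only [EE, ← Matrix.ext_iff, diagonal_mul, mul_diagonal]
  refine ⟨fun H j a b => ?_, fun H a b c => by simpa [c.symm] using H (bcl a) a b⟩
  by_cases c : bcl a = bcl b
  · simp [c]
  · simp [H a b c]

lemma BD.inv (H : BD g) (e : g * g' = 1) : BD g' := bd_iff.2 fun j => by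
  rw [← Matrix.one_mul (EE d R j * g'), ← mul_eq_one_comm.1 e, Matrix.mul_assoc,
    ← Matrix.mul_assoc g, ← bd_iff.1 H, Matrix.mul_assoc, e, Matrix.mul_one]

lemma uniq [IsDomain R] (hd : 0 < d) (H : IsoT (Tm μ) T g g' h h') (H' : IsoT (Tm μ) T f f' e e')
    (j) : g' * EE d R j * g = f' * EE d R j * f := by
  have := bd_iff.1 (rigid hd (H.trans H'.symm)) j
  rw [← Matrix.mul_one (g' * EE d R j * g), ← mul_eq_one_comm.1 H'.1, Matrix.mul_assoc,
    Matrix.mul_assoc, ← Matrix.mul_assoc g, ← Matrix.mul_assoc (EE d R j), this]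
  simp only [← Matrix.mul_assoc]
  rw [mul_eq_one_comm.1 H.1, Matrix.one_mul]

lemma conj_map (φ : R →+* S) (j) :
    (g' * EE d R j * g).map φ = g'.map φ * EE d S j * g.map φ := by
  rw [Matrix.map_mul, Matrix.map_mul, EE_map]

end

lemma rat_idem' (K : Type) [Field K] [CharZero K] [Algebra ℚ K] [IsAlgClosed K] [IsGalois ℚ K]
    (hd : 0 < d) {g g' : Matrix (Sg d) (Sg d) ℤ_[2]} {h h' : Matrix (Ce d) (Ce d) ℤ_[2]}
    (H : IsoT (Tm μ) T g g' h h') (j) : ∃ P : Matrix (Sg d) (Sg d) ℚ,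
      ∀ (F : Type) [Field F] [CharZero F] (f f' : Matrix (Sg d) (Sg d) F)
        (e e' : Matrix (Ce d) (Ce d) F), IsoT (Tm μ) T f f' e e' →
          P.map (Rat.castHom F) = f' * EE d F j * f := by
  obtain ⟨g, g', h, h', H⟩ := (H.map PadicInt.Coe.ringHom).closure K
  choose P hP using fun a b => (InfiniteGalois.mem_range_algebraMap_iff_fixed (k := ℚ)
    ((g' * EE d K j * g) a b)).2 fun s => congrFun (congrFun
      ((conj_map (s : K →+* K) j).trans (uniq hd (H.map (s : K →+* K)) H j)) a) b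
  refine ⟨Matrix.of P, fun F _ _ f f' e e' H' => ?_⟩
  let ι : K →ₐ[ℚ] AlgebraicClosure F := IsAlgClosed.lift
  let κ := algebraMap F (AlgebraicClosure F)
  refine map_injective κ.injective ?_
  change (_ : Matrix _ _ F).map κ = (_ : Matrix _ _ F).map κ
  rw [conj_map, ← uniq hd (H.map (ι : K →+* AlgebraicClosure F)) (H'.map κ) j, ← conj_map]
  ext a b
  simp [← hP]

lemma int_idem (hd : 0 < d) (loc : ∀ (p : ℕ) [Fact p.Prime],
    ∃ (g g' : Matrix (Sg d) (Sg d) ℤ_[p]) (h h' : Matrix (Ce d) (Ce d) ℤ_[p]),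
      IsoT (Tm μ) T g g' h h') (j) : ∃ P : Matrix (Sg d) (Sg d) ℤ, ∀ (p : ℕ) [Fact p.Prime]
      (g g' : Matrix (Sg d) (Sg d) ℤ_[p]) (h h' : Matrix (Ce d) (Ce d) ℤ_[p]),
        IsoT (Tm μ) T g g' h h' → P.map (Int.castRingHom _) = g' * EE d _ j * g := by
  obtain ⟨g, g', h, h', H⟩ := loc 2
  obtain ⟨P, hP⟩ := @rat_idem' _ _ _ (AlgebraicClosure ℚ) _ _ (AlgebraicClosure.instAlgebra ℚ) _
    (IsAlgClosure.isGalois ℚ _) hd _ _ _ _ H j
  have key : ∀ (p : ℕ) [Fact p.Prime] (g g' : Matrix (Sg d) (Sg d) ℤ_[p])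
      (h h' : Matrix (Ce d) (Ce d) ℤ_[p]), IsoT (Tm μ) T g g' h h' → ∀ a b,
        (P a b : ℚ_[p]) = (g' * EE d ℤ_[p] j * g) a b := fun p _ g g' h h' H a b =>
    congrFun (congrFun ((hP _ _ _ _ _ (H.map PadicInt.Coe.ringHom)).trans
      (conj_map _ j).symm) a) b
  obtain ⟨P, rfl⟩ := int_of_padic P fun p _ a b => by
    obtain ⟨g, g', h, h', H⟩ := loc p
    rw [key p _ _ _ _ H]
    exact PadicInt.norm_le_one _
  exact ⟨P, fun p _ g g' h h' H => Matrix.ext fun a b =>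
    Subtype.ext (by simpa using key p _ _ _ _ H a b)⟩

lemma adapt {σ J : Type} [Fintype σ] [DecidableEq σ] [Fintype J] [DecidableEq J] (c : σ → J)
    (P : J → Matrix σ σ ℤ) (h1 : ∀ j k, P j * P k = if j = k then P j else 0) (h2 : ∑ j, P j = 1)
    (h3 : ∀ j, (P j).trace = Fintype.card {i // c i = j}) : ∃ G G' : Matrix σ σ ℤ, G * G' = 1 ∧
      ∀ j, P j * G = G * diagonal fun i => if c i = j then 1 else 0 := by
  have b : ∀ j, Nonempty (Module.Basis {i // c i = j} ℤ (LinearMap.range (toLin' (P j)))) := fun j => by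
    have : IsIdempotentElem (toLin' (P j)) := by
      rw [IsIdempotentElem, Module.End.mul_eq_comp, ← toLin'_mul, h1, if_pos rfl]
    have e := (LinearMap.IsIdempotentElem.isProj_range _ this).trace
    rw [trace_toLin'_eq, h3, Nat.cast_inj] at e
    exact ⟨(Module.finBasisOfFinrankEq ℤ _ e.symm).reindex (Fintype.equivFin _).symm⟩
  let b := fun j => (b j).some
  let G : Matrix σ σ ℤ := Matrix.of fun a i => (b (c i) ⟨i, rfl⟩).1 a
  have hG : ∀ j (i : {i // c i = j}), G *ᵥ Pi.single i.1 1 = (b j i).1 := by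
    rintro _ ⟨i, rfl⟩
    rw [mulVec_single_one]
    rfl
  obtain ⟨G', e⟩ := (mulVec_surjective_iff_exists_right_inverse (A := G)).1 fun v => by
    rw [← one_mulVec v, ← h2, sum_mulVec]
    refine (LinearMap.range (toLin' G)).sum_mem fun j _ => ?_
    have := congrArg Subtype.val ((b j).sum_repr ⟨_, v, rfl⟩)
    rw [Submodule.coe_sum] at this
    change toLin' (P j) v ∈ _
    rw [← show _ = toLin' (P j) v from this]
    exact Submodule.sum_mem _ fun i _ => Submodule.smul_mem _ _ (LinearMap.mem_range.2 ⟨_, hG j i⟩)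
  refine ⟨G, G', e, fun j => Matrix.ext_of_mulVec_single fun i => ?_⟩
  obtain ⟨w, hw⟩ := (b (c i) ⟨i, rfl⟩).2
  rw [← mulVec_mulVec, ← mulVec_mulVec, diagonal_mulVec_single, hG _ ⟨i, rfl⟩, ← hw, toLin'_apply,
    mulVec_mulVec, h1]
  by_cases e : c i = j
  · rw [if_pos e, if_pos e.symm, mul_one, hG _ ⟨i, rfl⟩, ← hw, toLin'_apply, e]
  · simp [e, Ne.symm e]

/-- the bilinear map in a new basis -/
def chg (T : Sg d → Sg d → Ce d → ℤ) (G : Matrix (Sg d) (Sg d) ℤ) : Sg d → Sg d → Ce d → ℤ :=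
  fun i j => bil T (fun k => G k i) fun k => G k j

lemma iso_chg {G G' : Matrix (Sg d) (Sg d) ℤ} (e : G * G' = 1) : IsoT T (chg T G) G G' 1 1 :=
  IsoT.of_bil e (Matrix.one_mul 1) fun _ _ => (vecMul_one _).symm

theorem blocks (hd : 0 < d) (loc : ∀ (p : ℕ) [Fact p.Prime],
    ∃ (g g' : Matrix (Sg d) (Sg d) ℤ_[p]) (h h' : Matrix (Ce d) (Ce d) ℤ_[p]),
      IsoT (Tm μ) T g g' h h') : ∃ G G' : Matrix (Sg d) (Sg d) ℤ, G * G' = 1 ∧
      ∀ (p : ℕ) [Fact p.Prime], ∃ (g g' : Matrix (Sg d) (Sg d) ℤ_[p])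
        (h h' : Matrix (Ce d) (Ce d) ℤ_[p]), IsoT (Tm μ) (chg T G) g g' h h' ∧ BD g := by
  choose P hP using int_idem hd loc
  obtain ⟨g, g', h, h', H⟩ := loc 2
  have inj := map_injective (m := Sg d) (n := Sg d) (Int.castRingHom ℤ_[2]).injective_int
  obtain ⟨G, G', e, hG⟩ := adapt bcl P (fun j k => inj (by
      change (_ : Matrix _ _ ℤ).map _ = (_ : Matrix _ _ ℤ).map _
      rw [Matrix.map_mul, hP _ _ _ _ _ _ H, hP _ _ _ _ _ _ H, Matrix.mul_assoc, Matrix.mul_assoc,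
        ← Matrix.mul_assoc g, ← Matrix.mul_assoc g, H.1, Matrix.one_mul, ← Matrix.mul_assoc (EE _ _ _),
        EE, EE, diagonal_mul_diagonal]
      split_ifs with c
      · rw [hP _ _ _ _ _ _ H, EE, Matrix.mul_assoc, ← c]
        congr 3
        funext i
        split_ifs <;> simp
      · rw [Matrix.map_zero _ (map_zero _), show (fun i => _) = fun _ => (0 : ℤ_[2]) from
          funext fun i => by by_cases a : bcl i = j <;> simp [a, c]]
        simp))
    (inj (by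
      change (Int.castRingHom ℤ_[2]).mapMatrix _ = (Int.castRingHom ℤ_[2]).mapMatrix _
      rw [map_sum, map_one]
      simp only [RingHom.mapMatrix_apply, hP _ _ _ _ _ _ H, ← Finset.sum_mul, ← Finset.mul_sum]
      rw [show ∑ j, EE d ℤ_[2] j = 1 from Matrix.ext fun a b => by
        simp [EE, Matrix.sum_apply, diagonal_apply, one_apply], Matrix.mul_one,
        mul_eq_one_comm.1 H.1]))
    fun j => (Int.castRingHom ℤ_[2]).injective_int (by
      rw [AddMonoidHom.map_trace, hP _ _ _ _ _ _ H, trace_mul_cycle, H.1, Matrix.one_mul]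
      simp [EE, Fintype.card_subtype])
  refine ⟨G, G', e, fun p _ => ?_⟩
  obtain ⟨g, g', h, h', H⟩ := loc p
  refine ⟨_, _, _, _, H.trans ((iso_chg e).map (Int.castRingHom _)), bd_iff.2 fun j => ?_⟩
  have := congrArg (fun M : Matrix _ _ ℤ => g * M.map (Int.castRingHom ℤ_[p])) (hG j)
  simp only [Matrix.map_mul, hP _ _ _ _ _ _ H, ← Matrix.mul_assoc, H.1, Matrix.one_mul] at this
  rw [← Matrix.mul_assoc, this, ← EE_map (Int.castRingHom ℤ_[p])]
  rfl

end Pool.Agent.Lib.MP_a8bb0e_al.Uni
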