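import Pool.Agent.Lib.MP_a8bb0e_al.Uni.Desc

/-! A bilinear map that is locally attached to a ring is attached to a ring. -/

open Matrix

namespace Pool.Agent.Lib.MP_a8bb0e_al.Uni

lemma loc_span {ι κ : Type} [Fintype ι] (W : ι → κ → ℤ) (t : κ → ℤ)
    (h : ∀ (p : ℕ) [Fact p.Prime], ∃ m : ι → ℤ_[p], ∀ k, (t k : ℤ_[p]) = ∑ i, m i * W i k) :
    ∃ m : ι → ℤ, t = ∑ i, m i • W i := by
  let J : Ideal ℤ := (Submodule.span ℤ (Set.range W)).comap (LinearMap.toSpanSingleton ℤ _ t)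
  have : (1 : ℤ) ∈ J := by
    by_contra hc
    obtain ⟨M, hM, le⟩ := J.exists_le_maximal fun e => hc (e ▸ trivial)
    obtain ⟨q, rfl⟩ := (IsPrincipalIdealRing.principal M).principal
    have hq : Prime q := (Ideal.span_singleton_prime (by
      rintro rfl
      exact Int.not_isField (Ring.isField_iff_maximal_bot.2 (by simpa using hM)))).1 hM.isPrime
    have : Fact q.natAbs.Prime := ⟨Int.prime_iff_natAbs_prime.1 hq⟩
    obtain ⟨m, hm⟩ := h q.natAbs
    have := span_int_solutions (Set.range fun k (o : Option ι) => o.elim (-t k) fun i => W i k)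
      (fun o => o.elim 1 m) (by
        rintro _ ⟨k, rfl⟩
        simp [Fintype.sum_option, hm, mul_comm])
    have h1 := (Submodule.span_le (p := Submodule.comap (LinearMap.proj (R := ℤ_[q.natAbs])
        (φ := fun _ : Option ι => ℤ_[q.natAbs]) none)
        (Ideal.span {(q.natAbs : ℤ_[q.natAbs])}))).2 (fun _ => by
      rintro ⟨x, hx, rfl⟩
      have e : x none • t = ∑ i, x (some i) • W i := funext fun k => by
        have := hx _ ⟨k, rfl⟩
        simp only [Fintype.sum_option, Option.elim] at this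
        simp only [Pi.smul_apply, Finset.sum_apply, smul_eq_mul, mul_comm (x _)]
        linarith
      have : x none ∈ J := by
        change x none • t ∈ Submodule.span ℤ _
        rw [e]
        exact Submodule.sum_mem _ fun i _ => Submodule.smul_mem _ _ (Submodule.subset_span ⟨i, rfl⟩)
      obtain ⟨z, hz⟩ := Int.natAbs_dvd.2 (Ideal.mem_span_singleton.1 (le this))
      exact Ideal.mem_span_singleton.2 ⟨z, by simp [hz]⟩) this
    exact PadicInt.prime_p.not_isUnit (isUnit_of_dvd_one (Ideal.mem_span_singleton.1 h1))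
  obtain ⟨m, hm⟩ := (Submodule.mem_span_range_iff_exists_fun ℤ).1 this
  exact ⟨m, (one_smul ℤ t).symm.trans hm.symm⟩

lemma unit_of_padic {ι : Type} [Fintype ι] [DecidableEq ι] (M : Matrix ι ι ℤ)
    (h : ∀ (p : ℕ) [Fact p.Prime], ∃ N : Matrix ι ι ℤ_[p], N * M.map (Int.castRingHom _) = 1) :
    ∃ N, M * N = 1 := by
  refine isUnit_iff_exists_inv.1 ((isUnit_iff_isUnit_det M).2 ?_)
  rw [Int.isUnit_iff_natAbs_eq]
  by_contra hc
  obtain ⟨p, hp, z, hz⟩ := Int.exists_prime_and_dvd hc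
  have : Fact p.natAbs.Prime := ⟨Int.prime_iff_natAbs_prime.1 hp⟩
  obtain ⟨N, hN⟩ := h p.natAbs
  have := isUnit_det_of_left_inverse hN
  rw [← RingHom.mapMatrix_apply, ← RingHom.map_det] at this
  refine PadicInt.prime_p.not_isUnit (isUnit_of_dvd_unit ?_ this)
  simpa using map_dvd (Int.castRingHom ℤ_[p.natAbs]) (Int.natAbs_dvd.2 ⟨z, hz⟩)

variable {d : ℕ} {μ ν : Fin d → Fin d → Fin d → ℤ} {T : Sg d → Sg d → Ce d → ℤ}

section
variable {R : Type} [CommRing R] {g g' : Matrix (Sg d) (Sg d) R} {h h' : Matrix (Ce d) (Ce d) R}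

lemma IsoT.val (H : IsoT (Tm μ) T g g' h h') (x y : Sg d → R) :
    Uni.bil T x y = Uni.bil (Tm μ) (g *ᵥ x) (g *ᵥ y) ᵥ* h' := by
  rw [H.bil, vecMul_vecMul, H.2.1, vecMul_one]

lemma bil_eP (T : Sg d → Sg d → Ce d → ℤ) (i : Sg d) (c : R) (v : Fin d → R) (k : Ce d) :
    bil T (Pi.single i c) (eP v) k = ∑ b, c * v b * T i (xp b) k := by
  simp [bil, Pi.single_apply, eP]

lemma bil_eX (T : Sg d → Sg d → Ce d → ℤ) (i : Sg d) (c : R) (v : Fin d → R) (k : Ce d) :
    bil T (eX v) (Pi.single i c) k = ∑ b, v b * c * T (xx b) i k := by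
  simp [bil, Pi.single_apply, eX]

/-- every central vector is reached in both ways -/
lemma reach (H : IsoT (Tm μ) T g g' h h') (b : BD g) (v : Fin d → R) :
    (∃ m : Fin d → R, ∀ k, (eC v ᵥ* h') k = ∑ c, m c * T (xx c) ss k) ∧
      ∃ m : Fin d → R, ∀ k, (eC v ᵥ* h') k = ∑ c, m c * T tt (xp c) k := by
  have b' := b.inv H.1
  have h1 := H.symm.bil (eX v) (Pi.single ss 1)
  have h2 := H.symm.bil (Pi.single tt 1) (eP v)
  rw [bil_Xs, one_smul, b'.eX, b'.one] at h1
  rw [bil_tP, one_smul, b'.eP, b'.one] at h2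
  exact ⟨⟨_, fun k => by rw [← h1, bil_eX]⟩, _, fun k => by rw [← h2, bil_eP]⟩

lemma cent (H : IsoT (Tm μ) T g g' h h') (b : BD g) (a c : Fin d) :
    (∃ v : Fin d → R, ∀ k, (T (xx a) ss k : R) = (eC v ᵥ* h') k) ∧
    (∃ v : Fin d → R, ∀ k, (T tt (xp a) k : R) = (eC v ᵥ* h') k) ∧
      ∃ v : Fin d → R, ∀ k, (T (xx a) (xp c) k : R) = (eC v ᵥ* h') k :=
  ⟨⟨_, fun k => by rw [← bil_single, H.val, ← eX_single, b.eX, b.one, bil_Xs]⟩,
    ⟨_, fun k => by rw [← bil_single, H.val, ← eP_single, b.eP, b.one, bil_tP]⟩,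
    _, fun k => by rw [← bil_single, H.val, ← eX_single, ← eP_single, b.eX, b.eP, bil_XP]⟩

lemma indep (H : IsoT (Tm μ) T g g' h h') (b : BD g) (v : Fin d → R)
    (e : ∀ k, ∑ c, v c * T (xx c) ss k = 0) : v = 0 := by
  have b' := b.inv H.1
  have h1 := H.bil (eX v) (Pi.single ss 1)
  rw [show bil T (eX v) (Pi.single ss 1) = 0 from funext fun k =>
    (bil_eX _ _ _ _ _).trans (by simpa using e k),
    zero_vecMul, b.eX, b.one, bil_Xs, mul_one] at h1
  have h2 : g.submatrix xx xx *ᵥ v = 0 := by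
    rw [← one_smul R (_ *ᵥ v), ← b.unit b' H.1 1, mul_comm, mul_smul,
      show _ • _ *ᵥ v = 0 from funext fun a => congrFun h1 (.inl a), smul_zero]
  have h3 := b.eX v
  rw [h2, show eX (0 : Fin d → R) = 0 by simp [eX]] at h3
  have h4 := congrArg (g' *ᵥ ·) h3
  simp only [mulVec_mulVec, mul_eq_one_comm.1 H.1, one_mulVec, mulVec_zero] at h4
  exact funext fun a => congrFun h4 (xx a)

lemma IsoT.cast (H : IsoT (Tm μ) T g g' h h') (x y : Sg d → ℤ) (k : Ce d) :
    Int.castRingHom R (Uni.bil T x y k) =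
      (Uni.bil (Tm μ) (g *ᵥ fun i => x i) (g *ᵥ fun i => y i) ᵥ* h') k := by
  rw [bil_map, H.val]; rfl

lemma supp (b : BD g) {G : Matrix (Sg d) (Sg d) ℤ} (bb : BD G) (i l : Sg d) (c : bcl l ≠ bcl i) :
    (g *ᵥ fun k => ((G *ᵥ Pi.single i 1 : Sg d → ℤ) k : R)) l = 0 := by
  rw [mulVec, dotProduct]
  refine Finset.sum_eq_zero fun k _ => ?_
  by_cases c' : bcl l = bcl k
  · simp [bb k i (c' ▸ c)]
  · simp [b l k c']

lemma unit_H (H : IsoT (Tm μ) T g g' h h') {G G' : Matrix (Sg d) (Sg d) ℤ}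
    {H0 : Matrix (Ce d) (Ce d) ℤ} (eG : G * G' = 1)
    (hH : ∀ x y, bil T (G *ᵥ x) (G *ᵥ y) = bil (Tm ν) x y ᵥ* H0) :
    ∃ N : Matrix (Ce d) (Ce d) R, N * H0.map (Int.castRingHom R) = 1 := by
  have hp := bil_of_cols (T := T) (T' := Tm ν) (g := G.map (Int.castRingHom R))
    (h := H0.map (Int.castRingHom _)) fun i j => funext fun k => by
      have := congrArg (Int.castRingHom R) (congrFun (hH (Pi.single i 1) (Pi.single j 1)) k)
      rw [bil_map, RingHom.map_vecMul, mulVec_single_one, mulVec_single_one] at this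
      refine this.trans (congrFun (congrArg (· ᵥ* _) (funext fun q => ?_)) k)
      exact congrArg (Int.castRingHom R) (bil_single _ _ _)
  have eG' : ∀ v, G.map (Int.castRingHom R) *ᵥ G'.map (Int.castRingHom R) *ᵥ v = v := fun v => by
    rw [mulVec_mulVec, ← Matrix.map_mul, eG, Matrix.map_one _ (map_zero _) (map_one _), one_mulVec]
  refine vecMul_surjective_iff_exists_left_inverse.1 (Function.Surjective.of_comp_left (f := (· ᵥ* h))
    (fun v => ?_) (Function.LeftInverse.injective (g := (· ᵥ* h')) fun v => by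
      simp only [vecMul_vecMul, H.2.1, vecMul_one]))
  rw [pi_eq_sum_univ' v]
  refine (LinearMap.range (h.vecMulLinear ∘ₗ (H0.map (Int.castRingHom R)).vecMulLinear)).sum_mem
    fun q _ => Submodule.smul_mem _ _ ⟨bil (Tm ν)
      (G'.map (Int.castRingHom R) *ᵥ g' *ᵥ Pi.single (sel q).1 1)
      (G'.map (Int.castRingHom R) *ᵥ g' *ᵥ Pi.single (sel q).2 1), ?_⟩
  rw [LinearMap.comp_apply, vecMulLinear_apply, vecMulLinear_apply, ← hp, eG', eG', ← H.bil,
    mulVec_mulVec, mulVec_mulVec, H.1, one_mulVec, one_mulVec, bil_sel]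

end

theorem fit (loc : ∀ (p : ℕ) [Fact p.Prime], ∃ (g g' : Matrix (Sg d) (Sg d) ℤ_[p])
    (h h' : Matrix (Ce d) (Ce d) ℤ_[p]), IsoT (Tm μ) T g g' h h' ∧ BD g) :
    ∃ ν g g' h h', IsoT (R := ℤ) T (Tm ν) g g' h h' := by
  choose M hM using fun a => loc_span (fun c => T tt (xp c)) (T (xx a) ss) fun p _ => by
    obtain ⟨g, g', h, h', H, b⟩ := loc p
    obtain ⟨v, hv⟩ := (cent H b a a).1
    exact (reach H b v).2.imp fun m hm k => (hv k).trans (hm k)
  choose M' hM' using fun a => loc_span (fun c => T (xx c) ss) (T tt (xp a)) fun p _ => by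
    obtain ⟨g, g', h, h', H, b⟩ := loc p
    obtain ⟨v, hv⟩ := (cent H b a a).2.1
    exact (reach H b v).1.imp fun m hm k => (hv k).trans (hm k)
  choose n hn using fun a c => loc_span (fun c => T (xx c) ss) (T (xx a) (xp c)) fun p _ => by
    obtain ⟨g, g', h, h', H, b⟩ := loc p
    obtain ⟨v, hv⟩ := (cent H b a c).2.2
    exact (reach H b v).1.imp fun m hm k => (hv k).trans (hm k)
  obtain ⟨g, g', h, h', H, b⟩ := loc 2
  have inj := (Int.castRingHom ℤ_[2]).injective_int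
  have e : Matrix.of M * Matrix.of M' = 1 := Matrix.ext fun a c => inj (sub_eq_zero.1 (congrFun
    (indep H b (fun c => Int.castRingHom _ ((Matrix.of M * Matrix.of M') a c) -
      Int.castRingHom _ ((1 : Matrix _ _ ℤ) a c)) fun k => by
        have := congrFun (hM a) k
        simp only [hM', Finset.sum_apply, Pi.smul_apply, smul_eq_mul, Finset.mul_sum] at this
        rw [Finset.sum_comm] at this
        simp [sub_mul, one_apply, Matrix.mul_apply, Finset.sum_mul, this, mul_assoc]) c))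
  have bb := bd_blk 1 (Matrix.of M)ᵀ
  have e1 : ∀ a, blk 1 (Matrix.of M)ᵀ *ᵥ Pi.single (xx a) 1 = Pi.single (xx a) 1 := fun a => by
    rw [← eX_single, bb.eX]
    exact congrArg eX (one_mulVec _)
  have e2 : ∀ a, blk 1 (Matrix.of M)ᵀ *ᵥ Pi.single (xp a) 1 = eP (M a) := fun a => by
    rw [← eP_single, bb.eP]
    exact congrArg eP (mulVec_single_one _ _)
  have e3 : ∀ k, blk 1 (Matrix.of M)ᵀ *ᵥ Pi.single (.inl (.inl k)) 1 =
      Pi.single (.inl (.inl k)) 1 := fun k => by rw [bb.one]; simp [blk]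
  obtain ⟨H0, hH⟩ := rel_of (μ := fun a c => ∑ b, M c b • n a b) (g := blk 1 (Matrix.of M)ᵀ) T
    (fun x y => funext fun k => inj (by
      rw [Pi.neg_apply, map_neg, H.cast, H.cast, bil_Tm, bil_Tm, ← neg_sub, neg_vecMul]; rfl))
    (fun i j z => funext fun k => inj (by
      rw [H.cast, bil_zero (supp b bb i) (supp b bb j) z, zero_vecMul]
      exact (map_zero _).symm))
    (fun a => funext fun k => by rw [e1, e2, e3, e3, bil_eP, bil_single, hM a]; simp)
    fun a c => funext fun k => by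
      simp only [e1, e2, e3, bil_eP, hn, Finset.sum_apply, Pi.smul_apply, bil_single, smul_eq_mul,
        Int.cast_id, Finset.mul_sum, Finset.sum_mul, mul_assoc, one_mul]
      exact Finset.sum_comm
  have eG : blk 1 (Matrix.of M)ᵀ * blk 1 (Matrix.of M')ᵀ = 1 := by
    rw [blk_mul, ← transpose_mul, mul_eq_one_comm.1 e, transpose_one, Matrix.one_mul, blk_one]
  obtain ⟨H1, hH1⟩ := unit_of_padic H0 fun p _ => by
    obtain ⟨g, g', h, h', H, -⟩ := loc p
    exact unit_H H eG hH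
  exact ⟨_, _, _, H0, H1, IsoT.of_bil' eG hH1 hH⟩

end Pool.Agent.Lib.MP_a8bb0e_al.Uni
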