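import Pool.Agent.Lib.MP_a8bb0e_al.Uni.Fit

/-! The group attached to a ring has genus one exactly when the ring has. -/

open scoped commutatorElement
open Matrix

namespace Pool.Agent.Lib.MP_a8bb0e_al.Uni

variable {d : ℕ} {μ ν : Fin d → Fin d → Fin d → ℤ}

/-- the cocycle as a biadditive map -/
def cocB (μ : Fin d → Fin d → Fin d → ℤ) : (Sg d → ℤ) →+ (Sg d → ℤ) →+ Ce d → ℤ :=
  AddMonoidHom.mk' (fun x => AddMonoidHom.mk' (coc μ x) fun y y' => by
    rw [← bil_coc, ← bil_coc, ← bil_coc]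
    funext a
    simp only [bil, Pi.add_apply, mul_add, add_mul, Finset.sum_add_distrib]) fun x x' => by
    refine AddMonoidHom.ext fun y => ?_
    change coc μ _ y = coc μ _ y + coc μ _ y
    rw [← bil_coc, ← bil_coc, ← bil_coc]
    funext a
    simp only [bil, Pi.add_apply, add_mul, Finset.sum_add_distrib]

/-- the group -/
abbrev GG (μ : Fin d → Fin d → Fin d → ℤ) : Type := Md (cocB μ)

lemma j_sel (q : Ce d) : Md.j (cocB μ) (.ofAdd (Pi.single q 1)) =
    ⁅(⟨Pi.single (sel q).1 1, 0⟩ : GG μ), (⟨Pi.single (sel q).2 1, 0⟩ : GG μ)⁆ := by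
  rw [Md.comm_eq]
  exact Md.ext rfl (Tm_sel q).symm

/-- the central extension -/
def ext (μ : Fin d → Fin d → Fin d → ℤ) : Ext (GG μ) (Sg d) (Ce d) where
  P := MonoidHom.mk' (fun a => .ofAdd a.x) fun _ _ => rfl
  J := Md.j _
  Ps x := ⟨⟨x.toAdd, 0⟩, rfl⟩
  Ji _ _ h := congrArg Md.c h
  ex k := ⟨fun h => ⟨.ofAdd k.c, Md.ext h.symm rfl⟩, by rintro ⟨c, rfl⟩; rfl⟩
  cen := Md.j_cen
  tor c := ⟨1, one_pos, by
    rw [pow_one]
    refine pi_ind ((commutator (GG μ)).comap (Md.j _)).toAddSubgroup' (fun q => ?_) c.toAdd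
    change Md.j _ (.ofAdd _) ∈ commutator _
    rw [j_sel]
    exact Subgroup.commutator_mem_commutator trivial trivial⟩

lemma ten_ext : ten (ext μ) = Tm μ := funext fun i => funext fun j => (ext μ).i_inj (by
  refine ((ext μ).i_w ⟨Pi.single i 1, 0⟩ ⟨Pi.single j 1, 0⟩).trans ?_
  rw [Md.comm_eq]
  rfl)

instance : Group.FG (GG μ) := by
  let S : Set (GG μ) := Set.range fun i => ⟨Pi.single i 1, 0⟩
  refine Group.fg_iff.2 ⟨S, eq_top_iff.2 fun k _ => ?_, Set.finite_range _⟩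
  obtain ⟨u, hu, e⟩ := pi_ind ((Subgroup.closure S).map (ext μ).P).toAddSubgroup'
    (fun i => ⟨_, Subgroup.subset_closure ⟨i, rfl⟩, rfl⟩) k.x
  obtain ⟨c, rfl⟩ := (ext μ).of_p_eq (u := k) (v := u) (congrArg Multiplicative.toAdd e).symm
  refine mul_mem hu (pi_ind ((Subgroup.closure S).comap (Md.j _)).toAddSubgroup' (fun q => ?_) c)
  change Md.j _ (.ofAdd _) ∈ Subgroup.closure S
  rw [j_sel, commutatorElement_def]
  have := fun i => Subgroup.subset_closure (k := S) ⟨i, rfl⟩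
  exact mul_mem (mul_mem (mul_mem (this _) (this _)) (inv_mem (this _))) (inv_mem (this _))

lemma class_two {K σ I : Type} [Group K] [Fintype σ] [Fintype I] [DecidableEq σ] [DecidableEq I]
    (E : Ext K σ I) (q : I) : Group.IsNilpotent K ∧ Group.nilpotencyClass K = 2 := by
  have := E.cl2
  refine ⟨inferInstance, le_antisymm ?_ ?_⟩
  · refine Subgroup.lowerCentralSeries_eq_bot_iff_nilpotencyClass_le.1 ?_
    rw [Subgroup.lowerCentralSeries_succ, Subgroup.top_lowerCentralSeries_one, eq_bot_iff,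
      Subgroup.commutator_le]
    intro a ha b _
    exact Subgroup.mem_bot.2 (commutatorElement_eq_one_iff_commute.2 (comm_central ha b))
  · by_contra hlt
    have := Subgroup.lowerCentralSeries_eq_bot_iff_nilpotencyClass_le.2
      (show Group.nilpotencyClass K ≤ 1 by omega)
    rw [Subgroup.top_lowerCentralSeries_one] at this
    obtain ⟨N, hN, e⟩ := E.tor (.ofAdd 1)
    have e2 := E.i_inj ((E.i_smul N 1).trans ((Subgroup.mem_bot.1 (this ▸ e)).trans E.i_zero.symm))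
    simpa [hN.ne'] using congrFun e2 q

/-- block diagonal equivalences -/
def QQ (μ ν : Fin d → Fin d → Fin d → ℤ) (R : Type) [CommRing R] : Prop :=
  ∃ (g g' : Matrix (Sg d) (Sg d) R) (h h' : Matrix (Ce d) (Ce d) R),
    IsoT (Tm μ) (Tm ν) g g' h h' ∧ BD g

lemma QQ.map {R S : Type} [CommRing R] [CommRing S] (H : QQ μ ν R) (φ : R →+* S) : QQ μ ν S := by
  obtain ⟨g, g', h, h', H, b⟩ := H
  exact ⟨_, _, _, _, H.map φ, fun i j e => (congrArg φ (b i j e)).trans (map_zero φ)⟩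

lemma QQ.prod {R S : Type} [CommRing R] [CommRing S] (H : QQ μ ν R) (H' : QQ μ ν S) :
    QQ μ ν (R × S) := by
  obtain ⟨g, g', h, h', H, b⟩ := H
  obtain ⟨f, f', e, e', H', b'⟩ := H'
  have h1 := (isoT_map_iff (g := Matrix.of fun i j => (g i j, f i j))
    (g' := Matrix.of fun i j => (g' i j, f' i j)) (h := Matrix.of fun i j => (h i j, e i j))
    (h' := Matrix.of fun i j => (h' i j, e' i j)) (RingHom.fst R S)).1 H
  have h2 := (isoT_map_iff (g := Matrix.of fun i j => (g i j, f i j))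
    (g' := Matrix.of fun i j => (g' i j, f' i j)) (h := Matrix.of fun i j => (h i j, e i j))
    (h' := Matrix.of fun i j => (h' i j, e' i j)) (RingHom.snd R S)).1 H'
  exact ⟨_, _, _, _, ⟨Matrix.ext fun i j => sub_eq_zero.1 (Prod.ext (h1.1 i j) (h2.1 i j)),
    Matrix.ext fun i j => sub_eq_zero.1 (Prod.ext (h1.2.1 i j) (h2.2.1 i j)),
    fun i j a => sub_eq_zero.1 (Prod.ext (h1.2.2 i j a) (h2.2.2 i j a))⟩,
    fun i j c => Prod.ext (b i j c) (b' i j c)⟩

lemma QQ.zmod (H : ∀ (p : ℕ) [Fact p.Prime], QQ μ ν ℤ_[p]) (m : ℕ) : 0 < m → QQ μ ν (ZMod m) := by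
  induction m using Nat.recOnPosPrimePosCoprime with
  | prime_pow p n hp _ =>
    have : Fact p.Prime := ⟨hp⟩
    exact fun _ => (H p).map (PadicInt.toZModPow n)
  | zero => exact fun h => absurd h (lt_irrefl 0)
  | one => exact fun _ => (H 2).map (PadicInt.toZModPow 0)
  | coprime a b ha hb c h1 h2 =>
    exact fun _ => ((h1 (by omega)).prod (h2 (by omega))).map
      (ZMod.chineseRemainder c).symm.toRingHom

theorem genus_iff (hd : 0 < d) : (∀ (H : Type) [Group H] [Group.IsNilpotent H] [Group.FG H],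
      SameFin (GG μ) H → Nonempty (H ≃* GG μ)) ↔
    ∀ ν, (∀ m : ℕ, 0 < m → RIso (ZMod m) ν μ) → RIso ℤ ν μ := by
  have nil := fun ν : Fin d → Fin d → Fin d → ℤ => (class_two (ext ν) (.inl ⟨0, hd⟩)).1
  refine ⟨fun h ν hν => ?_, fun h H _ _ _ hs => ?_⟩
  · obtain ⟨φ⟩ := h (GG ν) fun Q _ _ => (sameFin_of (ext ν) (ext μ) (fun m hm => by
      rw [ten_ext, ten_ext]; exact iso_of_riso (hν m hm)) Q).symm
    obtain ⟨g, g', k, k', I⟩ := isoT_of_equiv (ext ν) (ext μ) φ
    rw [ten_ext, ten_ext] at I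
    exact riso_of_iso I (rigid hd I) (rigid hd I.symm)
  obtain ⟨E, loc⟩ := local_iso (ext μ) hs
  rw [ten_ext] at loc
  obtain ⟨G, G', e, loc'⟩ := blocks hd loc
  obtain ⟨ν, f, f', k, k', I⟩ := fit loc'
  obtain ⟨a, a', b, b', J⟩ := iso_of_riso (h ν fun m hm => by
    obtain ⟨g, g', h, h', H, b⟩ := QQ.zmod (μ := μ) (ν := ν) (fun p _ => by
      obtain ⟨g, g', h, h', H, -⟩ := loc' p
      have := H.trans (I.map (Int.castRingHom _))
      exact ⟨_, _, _, _, this, rigid hd this⟩) m hm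
    exact riso_of_iso H b (b.inv H.1))
  exact equiv_of_int E (ext μ) (ten_ext ▸ J.trans ((iso_chg e).trans I).symm)

end Pool.Agent.Lib.MP_a8bb0e_al.Uni
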