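import Pool.Agent.Lib.MP_a8bb0e_al.Uni.Rigid

/-! Ring isomorphisms and equivalences of the attached commutator maps. -/

open Matrix

namespace Pool.Agent.Lib.MP_a8bb0e_al.Uni

variable {d : ℕ} {μ ν : Fin d → Fin d → Fin d → ℤ} {R : Type} [CommRing R]

/-- the generator `t` -/
abbrev tt : Sg d := .inl (.inl 0)
/-- the generator `s` -/
abbrev ss : Sg d := .inl (.inl 1)
/-- the first copy -/
abbrev xx (a : Fin d) : Sg d := .inl (.inr (.inl a))
/-- the second copy -/
abbrev xp (a : Fin d) : Sg d := .inl (.inr (.inr a))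

/-- a pair of generators for each central index -/
def sel : Ce d → Sg d × Sg d := Sum.elim (fun c => (xx c, ss)) fun q => (.inl q.1.1, .inr q.1.2)

/-- pairs of commuting blocks -/
def zp : Fin 5 ⊕ Fin 5 → Fin 5 ⊕ Fin 5 → Prop
  | .inl a, .inl b => (a, b) ∉ ({(0, 4), (4, 0), (3, 1), (1, 3), (3, 4), (4, 3)} : Finset _)
  | .inl a, .inr b => a = b
  | .inr a, .inl b => b = a
  | .inr _, .inr _ => True

/-- the defining relations -/
structure Rel (μ : Fin d → Fin d → Fin d → ℤ) {M : Type} [AddCommGroup M]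
    (B : Sg d → Sg d → M) : Prop where
  alt : ∀ i j, B j i = -B i j
  zero : ∀ i j, zp (bcl i) (bcl j) → B i j = 0
  tie : ∀ a, B tt (xp a) = B (xx a) ss
  mul : ∀ a b, B (xx a) (xp b) = ∑ c, μ a b c • B (xx c) ss

lemma Rel.ext {M : Type} [AddCommGroup M] {B C : Sg d → Sg d → M} (hB : Rel μ B) (hC : Rel μ C)
    (h : ∀ q, B (sel q).1 (sel q).2 = C (sel q).1 (sel q).2) (i j : Sg d) : B i j = C i j := by
  have h1 : ∀ c, B (xx c) ss = C (xx c) ss := fun c => h (.inl c)
  have h2 : ∀ a, B tt (xp a) = C tt (xp a) := fun a => by rw [hB.tie, hC.tie, h1]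
  have h3 : ∀ a b, B (xx a) (xp b) = C (xx a) (xp b) := fun a b => by simp only [hB.mul, hC.mul, h1]
  have sw : ∀ {i j}, B i j = C i j → B j i = C j i := fun e => by rw [hB.alt, hC.alt, e]
  by_cases z : zp (bcl i) (bcl j)
  · rw [hB.zero _ _ z, hC.zero _ _ z]
  rcases i with u | y <;> rcases j with v | y'
  · rcases u with u | a | a <;> rcases v with v | b | b
    · fin_cases u <;> fin_cases v <;> simp [zp, bcl, cl] at z
    · fin_cases u
      exacts [by simp [zp, bcl, cl] at z, sw (h1 _), by simp [zp, bcl, cl] at z]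
    · fin_cases u
      exacts [h2 _, by simp [zp, bcl, cl] at z, by simp [zp, bcl, cl] at z]
    · fin_cases v
      exacts [by simp [zp, bcl, cl] at z, h1 _, by simp [zp, bcl, cl] at z]
    · simp [zp, bcl, cl] at z
    · exact h3 _ _
    · fin_cases v
      exacts [sw (h2 _), by simp [zp, bcl, cl] at z, by simp [zp, bcl, cl] at z]
    · exact sw (h3 _ _)
    · simp [zp, bcl, cl] at z
  · exact h (.inr ⟨(u, y'), z⟩)
  · exact sw (h (.inr ⟨(v, y), z⟩))
  · exact absurd trivial z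

lemma Rel.map {M N : Type} [AddCommGroup M] [AddCommGroup N] {B : Sg d → Sg d → M} (hB : Rel μ B)
    (f : M →+ N) : Rel μ fun i j => f (B i j) :=
  ⟨fun i j => by rw [hB.alt, map_neg], fun i j z => by rw [hB.zero i j z, map_zero],
    fun a => by rw [hB.tie], fun a b => by simp only [hB.mul, map_sum, map_zsmul]⟩

lemma Tm_sel (q : Ce d) : Tm μ (sel q).1 (sel q).2 = Pi.single q 1 := by
  funext a
  rcases q with c | q <;> rcases a with a | a
  · simp [Tm, coc, rmul, sel, Pi.single_apply]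
  · simp [Tm, coc, sel]
  · simp [Tm, coc, rmul, sel]
  · simp only [Tm, coc, sel, Pi.single_apply, Subtype.ext_iff, Prod.ext_iff, ite_and, Sum.elim_inr,
      Pi.sub_apply, Sum.inl.injEq, Sum.inr.injEq, reduceCtorEq, if_false]
    split_ifs <;> simp

lemma rel_Tm : Rel μ (Tm μ) where
  alt i j := (neg_sub _ _).symm
  zero i j z := by
    have aux : ∀ (u : Cr d) (y : Ax d), cl u = y.1 → Tm μ (.inl u) (.inr y) = 0 := fun u y e => by
      funext c
      rcases c with c | q
      · simp [Tm, coc, rmul]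
      · by_cases c : q.1.1 = u
        · have : q.1.2 ≠ y := fun c' => q.2 (by rw [c, c', e])
          simp [Tm, coc, this]
        · simp [Tm, coc, c]
    rcases i with u | y <;> rcases j with v | y'
    · funext c
      rcases c with c | q
      · rcases u with u | a | a <;> rcases v with v | b | b <;>
          first
          | (simp [Tm, coc, rmul]; done)
          | (simp [zp, bcl, cl] at z; done)
          | (fin_cases u <;> first | (simp [Tm, coc, rmul]; done) | simp [zp, bcl, cl] at z)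
          | (fin_cases v <;> first | (simp [Tm, coc, rmul]; done) | simp [zp, bcl, cl] at z)
      · simp [Tm, coc]
    · exact aux _ _ z
    · exact (neg_sub _ _).symm.trans (neg_eq_zero.2 (aux _ _ z))
    · funext c
      rcases c with c | q <;> simp [Tm, coc, rmul]
  tie a := by
    funext c
    rcases c with c | q <;> simp [Tm, coc, rmul, Pi.single_apply]
  mul a b := by
    funext c
    rcases c with c | q <;> simp [Tm, coc, rmul, Pi.single_apply]

lemma Rel.eq {I : Type} {B : Sg d → Sg d → I → R} (hB : Rel μ B) (i j : Sg d) :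
    B i j = (fun q => (Tm μ i j q : R)) ᵥ* Matrix.of fun q => B (sel q).1 (sel q).2 := by
  let f : (Ce d → ℤ) →+ I → R := AddMonoidHom.mk'
    (fun v => (fun q => (v q : R)) ᵥ* Matrix.of fun q => B (sel q).1 (sel q).2) fun a b => by
      rw [← add_vecMul]
      congr 1
      funext q
      exact Int.cast_add _ _
  refine hB.ext (rel_Tm.map f) (fun q => ?_) i j
  rw [Tm_sel]
  funext a
  simp [f, vecMul, dotProduct, Pi.single_apply]

lemma bil_of_cols {σ I I' : Type} [Fintype σ] [Fintype I'] {T : σ → σ → I → ℤ}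
    {T' : σ → σ → I' → ℤ} {g : Matrix σ σ R} {h : Matrix I' I R}
    (H : ∀ i j, bil T (fun k => g k i) (fun k => g k j) = (fun b => (T' i j b : R)) ᵥ* h)
    (x y : σ → R) : bil T (g *ᵥ x) (g *ᵥ y) = bil T' x y ᵥ* h := by
  funext a
  rw [bil_mulVec]
  simp only [H, vecMul, dotProduct, Finset.mul_sum]
  simp only [Uni.bil, Finset.sum_mul]
  conv_rhs => rw [Finset.sum_comm]
  refine Finset.sum_congr rfl fun i _ => ?_
  conv_rhs => rw [Finset.sum_comm]
  exact Finset.sum_congr rfl fun j _ => Finset.sum_congr rfl fun b _ => by ring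

lemma bil_sel (q : Ce d) :
    bil (Tm μ) (Pi.single (sel q).1 (1 : R)) (Pi.single (sel q).2 1) = Pi.single q 1 := by
  funext a
  rw [bil_single, Tm_sel]
  simp [Pi.single_apply]

lemma bil_zero {x y : Sg d → R} {α β} (hx : ∀ i, bcl i ≠ α → x i = 0)
    (hy : ∀ i, bcl i ≠ β → y i = 0) (z : zp α β) : bil (Tm μ) x y = 0 := by
  funext a
  refine Finset.sum_eq_zero fun i _ => Finset.sum_eq_zero fun j _ => ?_
  by_cases e : bcl i = α
  · by_cases e' : bcl j = β
    · rw [rel_Tm.zero i j (e ▸ e' ▸ z)]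
      simp
    · simp [hy j e']
  · simp [hx i e]

/-- the first copy -/
def eX (v : Fin d → R) : Sg d → R := Sum.elim (Sum.elim 0 (Sum.elim v 0)) 0
/-- the second copy -/
def eP (v : Fin d → R) : Sg d → R := Sum.elim (Sum.elim 0 (Sum.elim 0 v)) 0
/-- the central copy -/
def eC (v : Fin d → R) : Ce d → R := Sum.elim v 0

lemma eX_single (a : Fin d) : eX (Pi.single a (1 : R)) = Pi.single (xx a) 1 := by
  funext i
  rcases i with (i | i | i) | i <;> simp [eX, Pi.single_apply]

lemma eP_single (a : Fin d) : eP (Pi.single a (1 : R)) = Pi.single (xp a) 1 := by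
  funext i
  rcases i with (i | i | i) | i <;> simp [eP, Pi.single_apply]

lemma bil_Xs (v : Fin d → R) (b : R) : bil (Tm μ) (eX v) (Pi.single ss b) = eC (b • v) := by
  funext c
  rcases c with c | ⟨⟨u, y⟩, q⟩ <;> simp [bil_Tm, coc, rmul, eX, eC, mul_comm]

lemma bil_tP (v : Fin d → R) (a : R) : bil (Tm μ) (Pi.single tt a) (eP v) = eC (a • v) := by
  funext c
  rcases c with c | ⟨⟨u, y⟩, q⟩ <;> simp [bil_Tm, coc, rmul, eP, eC]

lemma bil_XP (v w : Fin d → R) : bil (Tm μ) (eX v) (eP w) = eC (rmul μ v w) := by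
  funext c
  rcases c with c | ⟨⟨u, y⟩, q⟩ <;> simp [bil_Tm, coc, rmul, eX, eP, eC]

variable {g g' : Matrix (Sg d) (Sg d) R} {h h' : Matrix (Ce d) (Ce d) R}

lemma BD.eX (H : BD g) (v : Fin d → R) : g *ᵥ eX v = eX (g.submatrix xx xx *ᵥ v) := by
  funext i
  have : (g *ᵥ Uni.eX v) i = ∑ a, g i (xx a) * v a := by simp [mulVec, dotProduct, Uni.eX]
  rw [this]
  rcases i with (i | i | i) | i
  · exact Finset.sum_eq_zero fun a _ => by rw [H _ _ (by fin_cases i <;> simp [bcl, cl]), zero_mul]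
  · rfl
  · exact Finset.sum_eq_zero fun a _ => by rw [H _ _ (by simp [bcl, cl]), zero_mul]
  · exact Finset.sum_eq_zero fun a _ => by rw [H _ _ (by simp [bcl]), zero_mul]

lemma BD.eP (H : BD g) (v : Fin d → R) : g *ᵥ eP v = eP (g.submatrix xp xp *ᵥ v) := by
  funext i
  have : (g *ᵥ Uni.eP v) i = ∑ a, g i (xp a) * v a := by simp [mulVec, dotProduct, Uni.eP]
  rw [this]
  rcases i with (i | i | i) | i
  · exact Finset.sum_eq_zero fun a _ => by rw [H _ _ (by fin_cases i <;> simp [bcl, cl]), zero_mul]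
  · exact Finset.sum_eq_zero fun a _ => by rw [H _ _ (by simp [bcl, cl]), zero_mul]
  · rfl
  · exact Finset.sum_eq_zero fun a _ => by rw [H _ _ (by simp [bcl]), zero_mul]

lemma BD.one (H : BD g) (k : Fin 3) (c : R) : g *ᵥ Pi.single (.inl (.inl k)) c =
    Pi.single (.inl (.inl k)) (g (.inl (.inl k)) (.inl (.inl k)) * c) := by
  funext i
  rw [mulVec_single]
  by_cases e : i = .inl (.inl k)
  · simp [e]
  · rw [Pi.single_eq_of_ne e]
    have : g i (.inl (.inl k)) = 0 := H _ _ (by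
      rcases i with (i | i | i) | i
      · fin_cases i <;> fin_cases k <;> simp [bcl, cl] at e ⊢
      · fin_cases k <;> simp [bcl, cl]
      · fin_cases k <;> simp [bcl, cl]
      · simp [bcl])
    simp [this]

lemma eC_inj {v w : Fin d → R} (e : eC v = eC w) : v = w := funext fun a => congrFun e (.inl a)

lemma eX_inj {v w : Fin d → R} (e : eX v = eX w) : v = w := funext fun a => congrFun e (xx a)

lemma eP_inj {v w : Fin d → R} (e : eP v = eP w) : v = w := funext fun a => congrFun e (xp a)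

lemma BD.unit (H : BD g) (H' : BD g') (e : g * g' = 1) (k : Fin 3) :
    g (.inl (.inl k)) (.inl (.inl k)) * g' (.inl (.inl k)) (.inl (.inl k)) = 1 := by
  have := H.one k (g' (.inl (.inl k)) (.inl (.inl k)) * 1)
  rw [← H'.one, mulVec_mulVec, e, one_mulVec] at this
  simpa using (congrFun this (.inl (.inl k))).symm

lemma rmul_smul (a b : R) (v w : Fin d → R) : rmul μ (a • v) (b • w) = (a * b) • rmul μ v w := by
  funext c
  simp only [rmul, Pi.smul_apply, smul_eq_mul, Finset.mul_sum]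
  exact Finset.sum_congr rfl fun _ _ => Finset.sum_congr rfl fun _ _ => by ring

theorem riso_of_iso (H : IsoT (Tm ν) (Tm μ) g g' h h') (b : BD g) (b' : BD g') : RIso R μ ν := by
  have u0 := b.unit b' H.1 0
  have u1 := b.unit b' H.1 1
  have inv : ∀ {g g' : Matrix (Sg d) (Sg d) R}, BD g → BD g' → g * g' = 1 →
      g.submatrix xx xx * g'.submatrix xx xx = 1 := fun b b' e =>
    Matrix.ext_of_mulVec_single fun a => eX_inj (by
      rw [← mulVec_mulVec, ← b.eX, ← b'.eX, mulVec_mulVec, e, one_mulVec, one_mulVec])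
  have h1 : ∀ v, eC (g ss ss • g.submatrix xx xx *ᵥ v) = eC v ᵥ* h := fun v => by
    have := H.bil (eX v) (Pi.single ss 1)
    rwa [b.eX, b.one, bil_Xs, bil_Xs, mul_one, one_smul] at this
  have h2 : ∀ v, eC (g tt tt • g.submatrix xp xp *ᵥ v) = eC v ᵥ* h := fun v => by
    have := H.bil (Pi.single tt 1) (eP v)
    rwa [b.eP, b.one, bil_tP, bil_tP, mul_one, one_smul] at this
  refine ⟨toLin'OfInv (M := g' tt tt • g.submatrix xx xx) (M' := g tt tt • g'.submatrix xx xx)
    (by rw [smul_mul_smul_comm, inv b b' H.1, mul_comm, u0, one_smul])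
    (by rw [smul_mul_smul_comm, inv b' b (mul_eq_one_comm.1 H.1), u0, one_smul]) |>.symm,
    fun v w => ?_⟩
  have h3 := H.bil (eX v) (eP w)
  rw [b.eX, b.eP, bil_XP, bil_XP, ← h1] at h3
  have h4 := eC_inj ((h1 w).trans (h2 w).symm)
  change (g' tt tt • g.submatrix xx xx) *ᵥ _ = rmul ν ((g' tt tt • g.submatrix xx xx) *ᵥ v)
    ((g' tt tt • g.submatrix xx xx) *ᵥ w)
  have h5 : g.submatrix xx xx *ᵥ w = (g' ss ss * g tt tt) • g.submatrix xp xp *ᵥ w := by
    rw [mul_smul, ← h4, smul_smul, mul_comm, u1, one_smul]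
  simp only [smul_mulVec]
  rw [h5, smul_smul, rmul_smul, eC_inj h3, smul_smul]
  congr 1
  linear_combination (-(g' tt tt * g' ss ss * g ss ss)) * u0 - g' tt tt * u1

lemma rel_of (T : Sg d → Sg d → Ce d → ℤ) (hT : ∀ x y : Sg d → R, bil T y x = -bil T x y)
    (z : ∀ i j, zp (bcl i) (bcl j) → bil T (g *ᵥ Pi.single i 1) (g *ᵥ Pi.single j 1) = 0)
    (t : ∀ a, bil T (g *ᵥ Pi.single tt 1) (g *ᵥ Pi.single (xp a) 1) =
      bil T (g *ᵥ Pi.single (xx a) 1) (g *ᵥ Pi.single ss 1))
    (m : ∀ a b, bil T (g *ᵥ Pi.single (xx a) 1) (g *ᵥ Pi.single (xp b) 1) =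
      ∑ c, μ a b c • bil T (g *ᵥ Pi.single (xx c) 1) (g *ᵥ Pi.single ss 1)) :
    ∃ h : Matrix (Ce d) (Ce d) R, ∀ x y, bil T (g *ᵥ x) (g *ᵥ y) = bil (Tm μ) x y ᵥ* h := by
  have : Rel μ fun i j => bil T (g *ᵥ Pi.single i 1) (g *ᵥ Pi.single j 1) :=
    ⟨fun i j => hT _ _, z, t, m⟩
  exact ⟨_, bil_of_cols fun i j => by
    have := this.eq i j
    simp only [mulVec_single_one] at this ⊢
    exact this⟩

/-- the block matrix of an endomorphism of the ring -/
def blk (P : Matrix (Fin d) (Fin d) R) (Q : Matrix (Fin d) (Fin d) R) : Matrix (Sg d) (Sg d) R :=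
  fromBlocks (fromBlocks 1 0 0 (fromBlocks P 0 0 Q)) 0 0 1

lemma blk_mul (P Q P' Q' : Matrix (Fin d) (Fin d) R) : blk P Q * blk P' Q' = blk (P * P') (Q * Q') := by
  simp [blk, fromBlocks_multiply]

lemma blk_one : blk (1 : Matrix (Fin d) (Fin d) R) 1 = 1 := by simp [blk]

lemma bd_blk (P Q : Matrix (Fin d) (Fin d) R) : BD (blk P Q) := by
  rintro ((i | i | i) | i) ((j | j | j) | j) e <;>
    first
    | rfl
    | exact absurd rfl e
    | exact one_apply_ne fun c => e (c ▸ rfl)

lemma half (φ : (Fin d → R) ≃ₗ[R] (Fin d → R)) (hφ : ∀ x y, φ (rmul μ x y) = rmul ν (φ x) (φ y)) :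
    ∃ h : Matrix (Ce d) (Ce d) R, ∀ x y,
      bil (Tm ν) (blk (LinearMap.toMatrix' φ.toLinearMap) (LinearMap.toMatrix' φ.toLinearMap) *ᵥ x)
        (blk (LinearMap.toMatrix' φ.toLinearMap) (LinearMap.toMatrix' φ.toLinearMap) *ᵥ y) =
      bil (Tm μ) x y ᵥ* h := by
  set P := LinearMap.toMatrix' φ.toLinearMap
  have b := bd_blk P P
  have hP : ∀ v, P *ᵥ v = φ v := fun v => by rw [← toLin'_apply, toLin'_toMatrix']; rfl
  have e1 : ∀ a, blk P P *ᵥ Pi.single (xx a) 1 = eX (φ (Pi.single a 1)) := fun a => by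
    rw [← eX_single, b.eX, ← hP]; rfl
  have e2 : ∀ a, blk P P *ᵥ Pi.single (xp a) 1 = eP (φ (Pi.single a 1)) := fun a => by
    rw [← eP_single, b.eP, ← hP]; rfl
  have e3 : ∀ k, blk P P *ᵥ Pi.single (.inl (.inl k)) 1 = Pi.single (.inl (.inl k)) 1 := fun k => by
    rw [b.one]; simp [blk]
  refine rel_of _ (fun x y => by rw [bil_Tm, bil_Tm, neg_sub]) (fun i j z => ?_) (fun a => ?_)
    fun a c => ?_
  · rw [mulVec_single_one, mulVec_single_one]
    exact bil_zero (fun k => b k i) (fun k => b k j) z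
  · rw [e1, e2, e3, e3, bil_Xs, bil_tP]
  · simp only [e1, e2, e3, bil_Xs, bil_XP, one_smul, ← hφ]
    have : rmul μ (Pi.single a (1 : R)) (Pi.single c 1) = ∑ k, μ a c k • Pi.single k 1 := by
      funext k
      simp [rmul, Pi.single_apply]
    rw [this, map_sum]
    simp only [map_zsmul]
    funext k
    rcases k with k | k <;> simp [eC]

theorem iso_of_riso (H : RIso R μ ν) : ∃ (g g' : Matrix (Sg d) (Sg d) R)
    (h h' : Matrix (Ce d) (Ce d) R), IsoT (Tm ν) (Tm μ) g g' h h' := by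
  obtain ⟨φ, hφ⟩ := H
  obtain ⟨h, H1⟩ := half φ hφ
  obtain ⟨h', H2⟩ := half (μ := ν) (ν := μ) φ.symm fun x y => φ.injective (by simp [hφ])
  have e : LinearMap.toMatrix' φ.symm.toLinearMap * LinearMap.toMatrix' φ.toLinearMap = 1 := by
    rw [← LinearMap.toMatrix'_comp, LinearEquiv.symm_comp, LinearMap.toMatrix'_id]
  refine ⟨_, _, h, h', IsoT.of_bil' (mul_eq_one_comm.1 (by rw [blk_mul, e, blk_one]))
    (Matrix.ext_of_single_vecMul fun q => ?_) H1⟩
  rw [← vecMul_vecMul, ← bil_sel (μ := μ), ← H1, ← H2, mulVec_mulVec, mulVec_mulVec, blk_mul, e,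
    blk_one, one_mulVec, one_mulVec, vecMul_one]

end Pool.Agent.Lib.MP_a8bb0e_al.Uni
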