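import Pool.Agent.Lib.MP_a8bb0e_al.Uni.Defs
import Pool.Agent.Lib.MP_a8bb0e_al.Uni.Hom

/-! Equivalences between the commutator maps attached to two rings are block diagonal. -/

open Matrix

namespace Pool.Agent.Lib.MP_a8bb0e_al.Uni

variable {d : ℕ} (μ ν : Fin d → Fin d → Fin d → ℤ)

/-- all generators -/
abbrev Sg (d : ℕ) : Type := Cr d ⊕ Ax d

/-- structure constants of the commutator map -/
def Tm : Sg d → Sg d → Ce d → ℤ := fun i j =>
  coc μ (Pi.single i 1) (Pi.single j 1) - coc μ (Pi.single j 1) (Pi.single i 1)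

/-- the block of a generator -/
def bcl : Sg d → Fin 5 ⊕ Fin 5 := Sum.map cl fun y => y.1

/-- block diagonal matrices -/
def BD {R : Type} [CommRing R] (g : Matrix (Sg d) (Sg d) R) : Prop :=
  ∀ i j, bcl i ≠ bcl j → g i j = 0

section
variable {R : Type} [CommRing R]

lemma sum_single {σ : Type} [Fintype σ] [DecidableEq σ] (x y : σ → R) (a b : σ) :
    ∑ i, ∑ j, x i * y j * (((Pi.single i 1 : σ → ℤ) a * (Pi.single j 1 : σ → ℤ) b : ℤ) : R) =
      x a * y b := by
  simp [Pi.single_apply, Finset.sum_ite_eq]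

lemma bil_coc (x y : Sg d → R) :
    bil (fun i j => coc μ (Pi.single i 1) (Pi.single j 1)) x y = coc μ x y := by
  funext a
  rcases a with c | q
  · simp only [bil, coc, rmul, Sum.elim_inl, Int.cast_add, mul_add, Finset.sum_add_distrib,
      sum_single, Int.cast_sum, Finset.mul_sum, Int.cast_id]
    congr 1
    rw [Finset.sum_congr rfl fun i _ => Finset.sum_comm, Finset.sum_comm]
    refine Finset.sum_congr rfl fun a _ => ?_
    rw [Finset.sum_congr rfl fun i _ => Finset.sum_comm, Finset.sum_comm]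
    refine Finset.sum_congr rfl fun b _ => ?_
    rw [← sum_single, Finset.sum_mul]
    refine Finset.sum_congr rfl fun i _ => ?_
    rw [Finset.sum_mul]
    exact Finset.sum_congr rfl fun j _ => by rw [Int.cast_mul _ (μ a b c), ← mul_assoc]
  · exact sum_single _ _ _ _

lemma bil_Tm (x y : Sg d → R) : bil (Tm μ) x y = coc μ x y - coc μ y x := by
  rw [← bil_coc, ← bil_coc]
  funext a
  simp only [bil, Tm, Pi.sub_apply, Int.cast_sub, mul_sub, Finset.sum_sub_distrib]
  congr 1
  rw [Finset.sum_comm]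
  exact Finset.sum_congr rfl fun i _ => Finset.sum_congr rfl fun j _ => by rw [mul_comm (x j)]

lemma bil_inr (x y : Sg d → R) (q) : bil (Tm μ) x y (.inr q) =
    x (.inl q.1.1) * y (.inr q.1.2) - y (.inl q.1.1) * x (.inr q.1.2) := by
  rw [bil_Tm]; rfl

end

variable {K : Type} [Field K]

/-- the matrix of the adjoint map -/
noncomputable def ad (x : Sg d → K) : Matrix (Sg d) (Ce d) K :=
  Matrix.of fun j => bil (Tm μ) x (Pi.single j 1)

open Classical in
/-- the classes that do not contain the core part -/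
noncomputable def Jx (x : Sg d → K) : Finset (Fin 5) :=
  Finset.univ.filter fun j => ∃ u, cl u ≠ j ∧ x (.inl u) ≠ 0

lemma rank_ad (x : Sg d → K) :
    (2 * d + 4) * ∑ j ∈ Jx x, ((j : ℕ) + 1) ≤ (ad μ x).rank ∧
      (ad μ x).rank ≤ (2 * d + 4) * ∑ j ∈ Jx x, ((j : ℕ) + 1) + (2 * d + 3) := by
  classical
  let S : Finset (Ax d) := (Jx x).sigma fun _ => Finset.univ
  have hS : S.card = (2 * d + 4) * ∑ j ∈ Jx x, ((j : ℕ) + 1) := by
    simp [S, Finset.mul_sum]
  have mem : ∀ y : Ax d, y ∈ S ↔ ∃ u, cl u ≠ y.1 ∧ x (.inl u) ≠ 0 := fun y => by simp [S, Jx]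
  rw [← hS]
  constructor
  · choose u h1 h2 using fun y : S => (mem y).1 y.2
    refine le_trans (le_of_eq ?_) (rank_submatrix_le (ad μ x) (fun y : S => .inr y)
      fun y : S => .inr ⟨(u y, y), h1 y⟩)
    have : (ad μ x).submatrix (fun y : S => .inr y) (fun y : S => .inr ⟨(u y, y), h1 y⟩) =
        diagonal fun y => x (.inl (u y)) := by
      ext y y'
      by_cases h : y = y'
      · simp [ad, bil_inr, h]
      · simp [ad, bil_inr, h, Subtype.ext_iff.not.1 (Ne.symm h)]
    rw [this, rank_diagonal]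
    simp [h2]
  · refine (rank_le_card_of_support_subset _ (Finset.univ.disjSum S) ?_).trans ?_
    · rw [Function.support_subset_iff']
      rintro (u | y) h
      · simp at h
      · have h1 : ∀ u, cl u ≠ y.1 → x (.inl u) = 0 := by simpa [mem] using h
        funext a
        rcases a with c | q
        · simp [ad, row, bil_Tm, coc, rmul]
        · by_cases e : q.1.2 = y
          · simp [ad, row, bil_inr, h1 _ (e ▸ q.2)]
          · simp [ad, row, bil_inr, e]
    · simp
      omega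

variable {μ ν} {g g' : Matrix (Sg d) (Sg d) K} {h h' : Matrix (Ce d) (Ce d) K}

lemma wt_eq (H : IsoT (Tm ν) (Tm μ) g g' h h') (x : Sg d → K) :
    ∑ j ∈ Jx (g *ᵥ x), ((j : ℕ) + 1) = ∑ j ∈ Jx x, ((j : ℕ) + 1) := by
  have h1 : gᵀ * ad ν (g *ᵥ x) = ad μ x * h := by
    ext j a
    have := congrFun (H.bil x (Pi.single j 1)) a
    rw [mulVec_single_one] at this
    refine Eq.trans ?_ this
    simp only [Matrix.mul_apply, ad, of_apply, transpose_apply, bil, Finset.mul_sum]
    rw [Finset.sum_comm]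
    refine Finset.sum_congr rfl fun i _ => Finset.sum_congr rfl fun k _ => ?_
    simp [Pi.single_apply]
    ring
  have h2 := congrArg rank h1
  rw [rank_mul_eq_right_of_isUnit_det _ _ (by
      rw [det_transpose]; exact isUnit_det_of_right_inverse H.1),
    rank_mul_eq_left_of_isUnit_det _ _ (isUnit_det_of_right_inverse H.2.1)] at h2
  have h3 := rank_ad ν (g *ᵥ x)
  have h4 := rank_ad μ x
  rw [h2] at h3
  generalize ∑ j ∈ Jx (g *ᵥ x), ((j : ℕ) + 1) = a at *
  generalize ∑ j ∈ Jx x, ((j : ℕ) + 1) = b at *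
  rcases lt_trichotomy a b with e | e | e
  · nlinarith [h3.2, h4.1]
  · exact e
  · nlinarith [h3.1, h4.2]

lemma core_aux (H : IsoT (Tm ν) (Tm μ) g g' h h') (u : Cr d) (y : Ax d) :
    g (.inl u) (.inr y) = 0 := by
  have h1 := wt_eq H (Pi.single (.inr y) 1)
  have h2 : Jx (Pi.single (.inr y) (1 : K) : Sg d → K) = ∅ := by simp [Jx]
  rw [h2, Finset.sum_empty, Finset.sum_eq_zero_iff, mulVec_single_one] at h1
  by_contra e
  obtain ⟨j, hj⟩ := exists_ne (cl u)
  exact absurd (h1 j (by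
    simp only [Jx, Finset.mem_filter, Finset.mem_univ, true_and]
    exact ⟨u, hj.symm, e⟩)) (by omega)

lemma core_core (H : IsoT (Tm ν) (Tm μ) g g' h h') (i : Cr d) :
    (∀ u, cl u ≠ cl i → g (.inl u) (.inl i) = 0) ∧ ∃ u, cl u = cl i ∧ g (.inl u) (.inl i) ≠ 0 := by
  have h1 := wt_eq H (Pi.single (.inl i) 1)
  have h2 : Jx (Pi.single (.inl i) (1 : K) : Sg d → K) = Finset.univ.erase (cl i) := by
    ext j
    simp [Jx, Pi.single_apply, eq_comm]
  rw [h2, mulVec_single_one] at h1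
  have key : ∀ (J : Finset (Fin 5)) (c : Fin 5), (J = ∅ ∨ ∀ a ∉ J, ∀ b ∉ J, a = b) →
      ∑ j ∈ J, ((j : ℕ) + 1) = ∑ j ∈ Finset.univ.erase c, ((j : ℕ) + 1) → c ∉ J ∧ J ≠ ∅ := by
    decide
  obtain ⟨h3, h4⟩ := key _ _ (by
    refine or_iff_not_imp_left.2 fun e a ha b hb => ?_
    obtain ⟨j, hj⟩ := Finset.nonempty_iff_ne_empty.2 e
    simp only [Jx, Finset.mem_filter, Finset.mem_univ, true_and, not_exists, not_and,
      not_not] at hj ha hb
    obtain ⟨u, -, hu⟩ := hj
    exact (not_not.1 fun e => hu (ha u e)).symm.trans (not_not.1 fun e => hu (hb u e))) h1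
  have h5 : ∀ u, cl u ≠ cl i → g (.inl u) (.inl i) = 0 := by simpa [Jx] using h3
  obtain ⟨j, hj⟩ := Finset.nonempty_iff_ne_empty.2 h4
  simp only [Jx, Finset.mem_filter, Finset.mem_univ, true_and] at hj
  obtain ⟨u, -, hu⟩ := hj
  exact ⟨h5, u, not_not.1 fun e => hu (h5 u e), hu⟩

lemma comm_aux (H : IsoT (Tm ν) (Tm μ) g g' h h') (i : Cr d) (k : Sg d)
    (hk : ∀ u, cl u = cl i → g (.inl u) k = 0) (h0 : Tm μ (.inl i) k = 0) (y : Ax d)
    (hy : cl i ≠ y.1) : g (.inr y) k = 0 := by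
  obtain ⟨-, u, h1, h2⟩ := core_core H i
  have h3 := congrFun (H.bil (Pi.single (.inl i) 1) (Pi.single k 1)) (.inr ⟨(u, y), h1 ▸ hy⟩)
  have h4 : bil (Tm μ) (Pi.single (.inl i) (1 : K)) (Pi.single k 1) = 0 :=
    funext fun a => by rw [bil_single, h0]; simp
  rw [h4, zero_vecMul, bil_inr, mulVec_single_one, mulVec_single_one] at h3
  simpa [hk u h1, h2] using h3

theorem rigid_field (hd : 0 < d) (H : IsoT (Tm ν) (Tm μ) g g' h h') : BD g := by
  have two : ∀ (k i₁ i₂ : Cr d) (y : Ax d), cl i₁ ≠ cl k → cl i₂ ≠ cl k → cl i₁ ≠ cl i₂ →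
      Tm μ (.inl i₁) (.inl k) = 0 → Tm μ (.inl i₂) (.inl k) = 0 → g (.inr y) (.inl k) = 0 :=
    fun k i₁ i₂ y a b c e₁ e₂ => by
      by_cases e : cl i₁ = y.1
      · exact comm_aux H i₂ _ (fun u hu => (core_core H k).1 u (hu ▸ b)) e₂ y (e ▸ c.symm)
      · exact comm_aux H i₁ _ (fun u hu => (core_core H k).1 u (hu ▸ a)) e₁ y e
  rintro (u | y) (i | z) e
  · exact (core_core H i).1 u fun c => e (congrArg Sum.inl c)
  · exact core_aux H u z
  · have z : ∀ {a b : Cr d}, (∀ c, Tm μ (.inl a) (.inl b) (.inl c) = 0) →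
        Tm μ (.inl a) (.inl b) = 0 := fun h => funext fun c => by
      rcases c with c | q
      · exact h c
      · simp [Tm, coc]
    rcases i with i | a | a
    · fin_cases i
      · exact two _ (.inl 1) (.inl 2) y (by simp [cl]) (by simp [cl]) (by simp [cl])
          (z (by simp [Tm, coc, rmul])) (z (by simp [Tm, coc, rmul]))
      · exact two _ (.inl 0) (.inl 2) y (by simp [cl]) (by simp [cl]) (by simp [cl])
          (z (by simp [Tm, coc, rmul])) (z (by simp [Tm, coc, rmul]))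
      · exact two _ (.inl 0) (.inl 1) y (by simp [cl]) (by simp [cl]) (by simp [cl])
          (z (by simp [Tm, coc, rmul])) (z (by simp [Tm, coc, rmul]))
    · exact two _ (.inl 0) (.inl 2) y (by simp [cl]) (by simp [cl]) (by simp [cl])
        (z (by simp [Tm, coc, rmul])) (z (by simp [Tm, coc, rmul]))
    · exact two _ (.inl 1) (.inl 2) y (by simp [cl]) (by simp [cl]) (by simp [cl])
        (z (by simp [Tm, coc, rmul])) (z (by simp [Tm, coc, rmul]))
  · obtain ⟨i, hi⟩ : ∃ i : Cr d, cl i = z.1 := by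
      generalize z.1 = j
      fin_cases j
      exacts [⟨.inl 0, rfl⟩, ⟨.inl 1, rfl⟩, ⟨.inl 2, rfl⟩, ⟨.inr (.inl ⟨0, hd⟩), rfl⟩,
        ⟨.inr (.inr ⟨0, hd⟩), rfl⟩]
    refine comm_aux H i _ (fun u _ => core_aux H u z) (funext fun c => ?_) y
      fun c => e (congrArg Sum.inr (c.symm.trans hi))
    rcases c with c | q
    · simp [Tm, coc, rmul]
    · by_cases c : q.1.1 = i
      · have : q.1.2 ≠ z := fun c' => q.2 (by rw [c, c', hi])
        simp [Tm, coc, this]
      · simp [Tm, coc, c]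

theorem rigid {R : Type} [CommRing R] [IsDomain R] {g g' : Matrix (Sg d) (Sg d) R}
    {h h' : Matrix (Ce d) (Ce d) R} (hd : 0 < d) (H : IsoT (Tm ν) (Tm μ) g g' h h') : BD g :=
  fun i j e => IsFractionRing.injective R (FractionRing R)
    ((rigid_field hd (H.map (algebraMap R (FractionRing R))) i j e).trans (map_zero _).symm)

end Pool.Agent.Lib.MP_a8bb0e_al.Uni
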