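import Pool.Agent.Lib.MP_a8bb0e_al.Pres

/-! Equivalence of integral bilinear maps over rings, with arbitrary finite index types. -/

open Matrix MvPolynomial Filter Topology

namespace Pool.Agent.Lib.MP_a8bb0e_al.Uni

variable {σ I : Type} [Fintype σ] [Fintype I] [DecidableEq σ] [DecidableEq I]

/-- the bilinear map with structure constants `T` -/
def bil (T : σ → σ → I → ℤ) {R : Type} [CommRing R] (x y : σ → R) : I → R :=
  fun a => ∑ i, ∑ j, x i * y j * (T i j a : R)

/-- an equivalence of two bilinear maps over the ring `R` -/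
def IsoT (T T' : σ → σ → I → ℤ) {R : Type} [CommRing R] (g g' : Matrix σ σ R)
    (h h' : Matrix I I R) : Prop :=
  g * g' = 1 ∧ h * h' = 1 ∧
    ∀ i j a, ∑ k, ∑ l, g k i * g l j * (T k l a : R) = ∑ b, (T' i j b : R) * h b a

variable {T T' T'' : σ → σ → I → ℤ}

section
variable {R S : Type} [CommRing R] [CommRing S]

omit [Fintype I] [DecidableEq I] in
lemma bil_single (i j : σ) (a : I) :
    bil T (Pi.single i (1 : R)) (Pi.single j 1) a = T i j a := by
  simp [bil, Pi.single_apply, Finset.sum_ite_eq']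

omit [Fintype I] [DecidableEq I] [DecidableEq σ] in
lemma bil_map (φ : R →+* S) (x y : σ → R) (a : I) :
    φ (bil T x y a) = bil T (fun i => φ (x i)) (fun i => φ (y i)) a := by
  simp [bil]

omit [Fintype I] [DecidableEq I] [DecidableEq σ] in
lemma bil_mulVec {τ τ' : Type} [Fintype τ] [Fintype τ'] (g : Matrix σ τ R) (g' : Matrix σ τ' R)
    (x : τ → R) (y : τ' → R) (a : I) :
    bil T (g *ᵥ x) (g' *ᵥ y) a =
      ∑ i, ∑ j, x i * y j * bil T (fun k => g k i) (fun k => g' k j) a := by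
  simp only [bil, mulVec, dotProduct, Finset.sum_mul, Finset.mul_sum]
  rw [Finset.sum_congr rfl fun k _ => Finset.sum_comm, Finset.sum_comm]
  conv_rhs => rw [Finset.sum_comm]
  refine Finset.sum_congr rfl fun j _ => ?_
  rw [Finset.sum_congr rfl fun k _ => Finset.sum_comm, Finset.sum_comm]
  refine Finset.sum_congr rfl fun i _ => Finset.sum_congr rfl fun k _ =>
    Finset.sum_congr rfl fun l _ => by ring

variable {g g' f f' : Matrix σ σ R} {h h' e e' : Matrix I I R}

lemma IsoT.bil (H : IsoT T T' g g' h h') (x y : σ → R) :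
    bil T (g *ᵥ x) (g *ᵥ y) = bil T' x y ᵥ* h := by
  funext a
  rw [bil_mulVec]
  simp only [Uni.bil, H.2.2, vecMul, dotProduct, Finset.sum_mul, Finset.mul_sum]
  conv_rhs => rw [Finset.sum_comm]
  refine Finset.sum_congr rfl fun i _ => ?_
  conv_rhs => rw [Finset.sum_comm]
  exact Finset.sum_congr rfl fun j _ => Finset.sum_congr rfl fun b _ => by ring

lemma IsoT.of_bil (h1 : g * g' = 1) (h2 : h * h' = 1)
    (h3 : ∀ i j, Uni.bil T (fun k => g k i) (fun k => g k j) = (fun b => (T' i j b : R)) ᵥ* h) :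
    IsoT T T' g g' h h' :=
  ⟨h1, h2, fun i j a => congrFun (h3 i j) a⟩

lemma IsoT.of_bil' (h1 : g * g' = 1) (h2 : h * h' = 1)
    (h3 : ∀ x y, Uni.bil T (g *ᵥ x) (g *ᵥ y) = Uni.bil T' x y ᵥ* h) : IsoT T T' g g' h h' :=
  IsoT.of_bil h1 h2 fun i j => by
    have := h3 (Pi.single i 1) (Pi.single j 1)
    rw [mulVec_single_one, mulVec_single_one] at this
    refine this.trans ?_
    congr 1
    funext b
    exact bil_single i j b

lemma IsoT.symm (H : IsoT T T' g g' h h') : IsoT T' T g' g h' h :=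
  IsoT.of_bil' (mul_eq_one_comm.1 H.1) (mul_eq_one_comm.1 H.2.1) fun x y => by
    have := H.bil (g' *ᵥ x) (g' *ᵥ y)
    rw [mulVec_mulVec, mulVec_mulVec, H.1, one_mulVec, one_mulVec] at this
    rw [this, vecMul_vecMul, H.2.1, vecMul_one]

lemma IsoT.trans (H : IsoT T T' g g' h h') (H' : IsoT T' T'' f f' e e') :
    IsoT T T'' (g * f) (f' * g') (e * h) (h' * e') :=
  IsoT.of_bil' (by rw [Matrix.mul_assoc, ← Matrix.mul_assoc f, H'.1, Matrix.one_mul, H.1])
    (by rw [Matrix.mul_assoc, ← Matrix.mul_assoc h, H.2.1, Matrix.one_mul, H'.2.1]) fun x y => by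
    rw [← mulVec_mulVec, ← mulVec_mulVec, H.bil, H'.bil, vecMul_vecMul]

lemma isoT_map_iff (φ : R →+* S) : IsoT T T' (g.map φ) (g'.map φ) (h.map φ) (h'.map φ) ↔
    (∀ i j, φ ((g * g') i j - (1 : Matrix σ σ R) i j) = 0) ∧
      (∀ i j, φ ((h * h') i j - (1 : Matrix I I R) i j) = 0) ∧
      ∀ i j a, φ (∑ k, ∑ l, g k i * g l j * (T k l a : R) - ∑ b, (T' i j b : R) * h b a) = 0 := by
  rw [map_eq_iff, map_eq_iff, Matrix.map_mul, Matrix.map_mul,
    Matrix.map_one φ (map_zero _) (map_one _), Matrix.map_one φ (map_zero _) (map_one _)]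
  simp only [IsoT, map_sub, sub_eq_zero, map_sum, map_mul, map_intCast, map_apply]

lemma IsoT.map (H : IsoT T T' g g' h h') (φ : R →+* S) :
    IsoT T T' (g.map φ) (g'.map φ) (h.map φ) (h'.map φ) :=
  (isoT_map_iff φ).2 ⟨fun i j => by rw [H.1, sub_self, map_zero],
    fun i j => by rw [H.2.1, sub_self, map_zero], fun i j a => by rw [H.2.2, sub_self, map_zero]⟩

end

lemma IsoT.closure (K : Type) [Field K] [Algebra ℚ K] [IsAlgClosed K] {F : Type} [Field F]
    [CharZero F] {g g' : Matrix σ σ F} {h h' : Matrix I I F} (H : IsoT T T' g g' h h') :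
    ∃ (g g' : Matrix σ σ K) (h h' : Matrix I I K), IsoT T T' g g' h h' := by
  let τ := ((σ × σ) ⊕ (σ × σ)) ⊕ (I × I) ⊕ (I × I)
  let x : τ → F := Sum.elim (Sum.elim (fun p => g p.1 p.2) fun p => g' p.1 p.2)
    (Sum.elim (fun p => h p.1 p.2) fun p => h' p.1 p.2)
  let φ := eval₂Hom (Int.castRingHom F) x
  have : ∃ y : τ → K, ∀ f, φ f = 0 → eval₂Hom (algebraMap ℤ K) y f = 0 := by
    by_contra hc
    obtain ⟨P, hP, e⟩ := spread (D := ℤ) (k := ℚ) (K := K) {f | φ f = 0} fun y hy => hc ⟨y, hy⟩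
    exact hP (by simpa [φ] using e F φ fun _ hf => hf)
  obtain ⟨y, hy⟩ := this
  let G : Matrix σ σ (MvPolynomial τ ℤ) := Matrix.of fun a b => X (.inl (.inl (a, b)))
  let G' : Matrix σ σ (MvPolynomial τ ℤ) := Matrix.of fun a b => X (.inl (.inr (a, b)))
  let E : Matrix I I (MvPolynomial τ ℤ) := Matrix.of fun a b => X (.inr (.inl (a, b)))
  let E' : Matrix I I (MvPolynomial τ ℤ) := Matrix.of fun a b => X (.inr (.inr (a, b)))
  have e1 : G.map φ = g := by ext; simp [G, φ, x]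
  have e2 : G'.map φ = g' := by ext; simp [G', φ, x]
  have e3 : E.map φ = h := by ext; simp [E, φ, x]
  have e4 : E'.map φ = h' := by ext; simp [E', φ, x]
  rw [← e1, ← e2, ← e3, ← e4, isoT_map_iff] at H
  exact ⟨_, _, _, _, (isoT_map_iff (g := G) (g' := G') (h := E) (h' := E')
    (eval₂Hom (algebraMap ℤ K) y)).2
      ⟨fun i j => hy _ (H.1 i j), fun i j => hy _ (H.2.1 i j), fun i j a => hy _ (H.2.2 i j a)⟩⟩

lemma isoT_padic (p : ℕ) [Fact p.Prime]
    (h : ∀ k, ∃ (g g' : Matrix σ σ (ZMod (p ^ k))) (h h' : Matrix I I (ZMod (p ^ k))),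
      IsoT T T' g g' h h') :
    ∃ (g g' : Matrix σ σ ℤ_[p]) (h h' : Matrix I I ℤ_[p]), IsoT T T' g g' h h' := by
  have : ∀ k, ∃ u : ((σ → σ → ℤ_[p]) × (σ → σ → ℤ_[p])) × (I → I → ℤ_[p]) × (I → I → ℤ_[p]),
      IsoT T T' ((Matrix.of u.1.1).map (PadicInt.toZModPow k))
        ((Matrix.of u.1.2).map (PadicInt.toZModPow k))
        ((Matrix.of u.2.1).map (PadicInt.toZModPow k))
        ((Matrix.of u.2.2).map (PadicInt.toZModPow k)) := fun k => by
    obtain ⟨g, g', h, h', H⟩ := h k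
    choose s hs using ZMod.ringHom_surjective (PadicInt.toZModPow (p := p) k)
    refine ⟨⟨⟨g.map s, g'.map s⟩, h.map s, h'.map s⟩, ?_⟩
    have e : ∀ {a : Type} (m : Matrix a a (ZMod (p ^ k))),
        (Matrix.of (m.map s)).map (PadicInt.toZModPow k) = m := fun m => by
      ext i j; exact hs _
    simpa only [e] using H
  choose u hu using this
  obtain ⟨x, φ, hφ, hx⟩ := CompactSpace.tendsto_subseq u
  simp only [isoT_map_iff] at hu
  refine ⟨Matrix.of x.1.1, Matrix.of x.1.2, Matrix.of x.2.1, Matrix.of x.2.2, ?_, ?_, ?_⟩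
  · ext i j
    refine sub_eq_zero.1 (lim_zero' hφ hx (fun X => (Matrix.of X.1.1 * Matrix.of X.1.2) i j -
      (1 : Matrix _ _ ℤ_[p]) i j) ?_ fun k => (hu k).1 i j)
    simp only [Matrix.mul_apply, of_apply]; fun_prop
  · ext i j
    refine sub_eq_zero.1 (lim_zero' hφ hx (fun X => (Matrix.of X.2.1 * Matrix.of X.2.2) i j -
      (1 : Matrix _ _ ℤ_[p]) i j) ?_ fun k => (hu k).2.1 i j)
    simp only [Matrix.mul_apply, of_apply]; fun_prop
  · intro i j a
    refine sub_eq_zero.1 (lim_zero' hφ hx (fun X => ∑ k, ∑ l, Matrix.of X.1.1 k i *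
      Matrix.of X.1.1 l j * (T k l a : ℤ_[p]) - ∑ b, (T' i j b : ℤ_[p]) * Matrix.of X.2.1 b a) ?_
      fun k => (hu k).2.2 i j a)
    simp only [of_apply]; fun_prop

end Pool.Agent.Lib.MP_a8bb0e_al.Uni
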